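import Pool.Agent.Lib.MP_a45045_al.Words

namespace Pool.Agent.Lib.MP_a45045_al

open Matrix

/-- value of a word -/
def pr {M : Type*} [Monoid M] (B : L → M) (u : List L) : M := (u.map B).prod

section pr
variable {M : Type*} [Monoid M] (B : L → M)

@[simp] lemma pr_nil : pr B [] = 1 := rfl
@[simp] lemma pr_cons (j : L) (u : List L) : pr B (j :: u) = B j * pr B u := by simp [pr]
@[simp] lemma pr_append (u v : List L) : pr B (u ++ v) = pr B u * pr B v := by simp [pr]
lemma pr_concat (u : List L) (j : L) : pr B (u ++ [j]) = pr B u * B j := by simp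

end pr

/-- derivative of a word in the direction of a jump -/
def dl {A : Type*} [Ring A] (BL BR Z : L → A) : List L → A
  | [] => 0
  | j :: u => BL j * dl BL BR Z u + Z j * pr BR u

section dl
variable {A : Type*} [Ring A] (BL BR : L → A)

@[simp] lemma dl_nil (Z : L → A) : dl BL BR Z [] = 0 := rfl
lemma dl_cons (Z : L → A) (j : L) (u : List L) :
    dl BL BR Z (j :: u) = BL j * dl BL BR Z u + Z j * pr BR u := rfl

lemma dl_append (Z : L → A) (u v : List L) :
    dl BL BR Z (u ++ v) = dl BL BR Z u * pr BR v + pr BL u * dl BL BR Z v := by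
  induction u with
  | nil => simp
  | cons j u ih =>
    rw [List.cons_append, dl_cons, dl_cons, ih, pr_append, pr_cons]
    noncomm_ring

lemma dl_concat (Z : L → A) (u : List L) (j : L) :
    dl BL BR Z (u ++ [j]) = dl BL BR Z u * BR j + pr BL u * Z j := by
  rw [dl_append]; simp [dl_cons]

lemma dl_add (Z W : L → A) (u : List L) :
    dl BL BR (Z + W) u = dl BL BR Z u + dl BL BR W u := by
  induction u with
  | nil => simp
  | cons j u ih => rw [dl_cons, dl_cons, dl_cons, ih, Pi.add_apply]; noncomm_ring

lemma dl_smul {K : Type*} [CommRing K] [Algebra K A] (c : K) (Z : L → A) (u : List L) :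
    dl BL BR (c • Z) u = c • dl BL BR Z u := by
  induction u with
  | nil => simp
  | cons j u ih => rw [dl_cons, dl_cons, ih, Pi.smul_apply]; simp

/-- the derivative as a linear map -/
def dlL (K : Type*) [CommRing K] [Algebra K A] (u : List L) : (L → A) →ₗ[K] A where
  toFun Z := dl BL BR Z u
  map_add' Z W := dl_add BL BR Z W u
  map_smul' c Z := dl_smul BL BR c Z u

end dl

section mat
variable {F : Type} [Field F] {S : Type} [Fintype S] [DecidableEq S]

lemma pr_block (BL BR Z : L → Matrix S S F) (u : List L) :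
    pr (fun j => fromBlocks (BL j) (Z j) 0 (BR j)) u =
      fromBlocks (pr BL u) (dl BL BR Z u) 0 (pr BR u) := by
  induction u with
  | nil => simp
  | cons j u ih => rw [pr_cons, ih, fromBlocks_multiply, dl_cons]; simp

omit [DecidableEq S] in
lemma mul_ne {M N : Matrix S S F} {p q : S} (h : (M * N) p q ≠ 0) :
    ∃ r, M p r ≠ 0 ∧ N r q ≠ 0 := by
  rw [mul_apply] at h
  obtain ⟨r, -, hr⟩ := Finset.exists_ne_zero_of_sum_ne_zero h
  exact ⟨r, left_ne_zero_of_mul hr, right_ne_zero_of_mul hr⟩

omit [DecidableEq S] in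
lemma mul_cut {M N : Matrix S S F} {p q : S} (a : S)
    (h : ∀ r, M p r ≠ 0 → N r q ≠ 0 → r = a) : (M * N) p q = M p a * N a q := by
  rw [mul_apply]
  apply Finset.sum_eq_single
  · intro r _ hr
    by_contra hc
    exact hr (h r (left_ne_zero_of_mul hc) (right_ne_zero_of_mul hc))
  · simp

omit [Fintype S] in
lemma one_ne {p q : S} (h : (1 : Matrix S S F) p q ≠ 0) : p = q := by
  by_contra hc
  exact h (one_apply_ne hc)

omit [Fintype S] [DecidableEq S] in
lemma add_ne {M N : Matrix S S F} {p q : S} (h : (M + N) p q ≠ 0) : M p q ≠ 0 ∨ N p q ≠ 0 := by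
  by_contra hc
  push Not at hc
  apply h
  simp [hc.1, hc.2]

/-- the part of a matrix that raises the level by one -/
def top (ψ : S → ℕ) (M : Matrix S S F) : Matrix S S F :=
  fun p q => if ψ q = ψ p + 1 then M p q else 0

lemma pr_pot (ψ : S → ℕ) (B : L → Matrix S S F) (hB : ∀ j p q, B j p q ≠ 0 → ψ q ≤ ψ p + 1)
    (u : List L) (p : S) : ∀ q, pr B u p q ≠ 0 → ψ q ≤ ψ p + u.length := by
  induction u using List.reverseRecOn with
  | nil => intro q h; rw [one_ne h]; simp
  | append_singleton u j ih =>
    intro q h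
    rw [pr_concat] at h
    obtain ⟨r, h1, h2⟩ := mul_ne h
    have := ih r h1
    have := hB j r q h2
    simp only [List.length_append, List.length_singleton]; omega

lemma pr_top_lev (ψ : S → ℕ) (B : L → Matrix S S F)
    (u : List L) (p : S) : ∀ q, pr (fun j => top ψ (B j)) u p q ≠ 0 → ψ q = ψ p + u.length := by
  induction u using List.reverseRecOn with
  | nil => intro q h; rw [one_ne h]; simp
  | append_singleton u j ih =>
    intro q h
    rw [pr_concat] at h
    obtain ⟨r, h1, h2⟩ := mul_ne h
    have := ih r h1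
    have : ψ q = ψ r + 1 := by
      by_contra hc
      exact h2 (by simp [top, hc])
    simp only [List.length_append, List.length_singleton]; omega

lemma pr_top (ψ : S → ℕ) (B : L → Matrix S S F) (hB : ∀ j p q, B j p q ≠ 0 → ψ q ≤ ψ p + 1)
    (u : List L) (p : S) : ∀ q, ψ q = ψ p + u.length →
      pr B u p q = pr (fun j => top ψ (B j)) u p q := by
  induction u using List.reverseRecOn with
  | nil => intro q _; rfl
  | append_singleton u j ih =>
    intro q h
    simp only [List.length_append, List.length_singleton] at h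
    rw [pr_concat, pr_concat, mul_apply, mul_apply]
    apply Finset.sum_congr rfl
    intro r _
    by_cases hr : ψ r = ψ p + u.length
    · rw [ih r hr]
      have : ψ q = ψ r + 1 := by omega
      simp [top, this]
    · have h1 : ψ q ≠ ψ r + 1 := by omega
      have h2 : pr B u p r * B j r q = 0 := by
        by_contra hc
        have := pr_pot ψ B hB u p r (left_ne_zero_of_mul hc)
        have := hB j r q (right_ne_zero_of_mul hc)
        omega
      rw [h2]; simp [top, h1]

/-- reachability in at most n steps -/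
inductive Near (X : L → Matrix S S F) : ℕ → S → S → Prop
  | refl (n : ℕ) (p : S) : Near X n p p
  | step {n : ℕ} {p q r : S} (j : L) : Near X n p q → X j q r ≠ 0 → Near X (n+1) p r

omit [Fintype S] [DecidableEq S] in
lemma Near.succ {X : L → Matrix S S F} {n : ℕ} {p q : S} (h : Near X n p q) :
    Near X (n+1) p q := by
  induction h with
  | refl n p => exact Near.refl _ _
  | step j _ h2 ih => exact Near.step j ih h2

omit [Fintype S] [DecidableEq S] in
lemma Near.mono {X : L → Matrix S S F} {n k : ℕ} {p q : S} (h : Near X n p q) (hk : n ≤ k) :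
    Near X k p q := by
  induction hk with
  | refl => exact h
  | step _ ih => exact ih.succ

lemma near_of_pr (X : L → Matrix S S F) (u : List L) (p : S) :
    ∀ q, pr (fun j => 1 + X j) u p q ≠ 0 → Near X u.length p q := by
  induction u using List.reverseRecOn with
  | nil => intro q h; rw [one_ne h]; exact Near.refl _ _
  | append_singleton u j ih =>
    intro q h
    rw [pr_concat] at h
    obtain ⟨r, h1, h2⟩ := mul_ne h
    simp only [List.length_append, List.length_singleton]
    rcases add_ne h2 with h3 | h3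
    · rw [← one_ne h3]; exact (ih r h1).succ
    · exact Near.step j (ih r h1) h3

/-- the filtration by a potential -/
def Fil (ν : S → ℕ) (r : ℕ) (M : Matrix S S F) : Prop := ∀ p q, M p q ≠ 0 → ν p + r ≤ ν q

omit [DecidableEq S] in
lemma Fil.mul {ν : S → ℕ} {r s : ℕ} {M N : Matrix S S F} (h1 : Fil ν r M) (h2 : Fil ν s N) :
    Fil ν (r + s) (M * N) := by
  intro p q h
  obtain ⟨a, h3, h4⟩ := mul_ne h
  have := h1 _ _ h3
  have := h2 _ _ h4
  omega

omit [Fintype S] [DecidableEq S] in
lemma Fil.add {ν : S → ℕ} {r : ℕ} {M N : Matrix S S F} (h1 : Fil ν r M) (h2 : Fil ν r N) :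
    Fil ν r (M + N) := by
  intro p q h
  rcases add_ne h with h | h
  · exact h1 _ _ h
  · exact h2 _ _ h

omit [Fintype S] [DecidableEq S] in
lemma Fil.neg {ν : S → ℕ} {r : ℕ} {M : Matrix S S F} (h1 : Fil ν r M) : Fil ν r (-M) := by
  intro p q h
  exact h1 p q (by simpa using h)

omit [Fintype S] [DecidableEq S] in
lemma Fil.mono {ν : S → ℕ} {r s : ℕ} {M : Matrix S S F} (h1 : Fil ν r M) (h : s ≤ r) :
    Fil ν s M := by
  intro p q h
  have := h1 p q h
  omega

omit [Fintype S] in
lemma Fil.one (ν : S → ℕ) : Fil ν 0 (1 : Matrix S S F) := by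
  intro p q h
  rw [one_ne h]; simp

omit [Fintype S] [DecidableEq S] in
lemma Fil.zero (ν : S → ℕ) (r : ℕ) : Fil ν r (0 : Matrix S S F) := by
  intro p q h
  simp at h

omit [Fintype S] [DecidableEq S] in
lemma Fil.eq_zero {ν : S → ℕ} {r : ℕ} {M : Matrix S S F} (h1 : Fil ν r M) (h : ∀ p, ν p < r) :
    M = 0 := by
  ext p q
  by_contra hc
  have := h1 p q hc
  have := h q
  omega

lemma fil_pr (ν : S → ℕ) (X : L → Matrix S S F) (hX : ∀ j p q, X j p q ≠ 0 → ν p < ν q)
    (u : List L) : Fil ν 1 (pr (fun j => 1 + X j) u - 1) := by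
  induction u with
  | nil => simpa using Fil.zero ν 1
  | cons j u ih =>
    have h1 : Fil ν 1 (X j) := fun p q h => hX j p q h
    have : pr (fun j => 1 + X j) (j :: u) - 1 =
        X j * (pr (fun j => 1 + X j) u - 1) + (X j + (pr (fun j => 1 + X j) u - 1)) := by
      rw [pr_cons]; noncomm_ring
    rw [this]
    exact ((h1.mul ih).mono (by omega)).add (h1.add ih)

/-- a chain of copies -/
def strand (m : ℕ) (B K : Matrix S S F) : Matrix (Fin m × S) (Fin m × S) F :=
  fun a b => (if a.1 = b.1 then B a.2 b.2 else 0) + (if a.1.val + 1 = b.1.val then K a.2 b.2 else 0)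

omit [Fintype S] in
lemma one_add_strand (m : ℕ) (B K : Matrix S S F) : 1 + strand m B K = strand m (1 + B) K := by
  ext ⟨c, p⟩ ⟨c', q⟩
  simp only [strand, Matrix.add_apply, one_apply, Prod.mk.injEq]
  by_cases h : c = c' <;> simp [h]

omit [Fintype S] [DecidableEq S] in
lemma strand_ne {m : ℕ} {B K : Matrix S S F} {a b : Fin m × S} (h : strand m B K a b ≠ 0) :
    (a.1 = b.1 ∧ B a.2 b.2 ≠ 0) ∨ (a.1.val + 1 = b.1.val ∧ K a.2 b.2 ≠ 0) := by
  unfold strand at h
  by_cases h1 : a.1 = b.1
  · left
    have h2 : ¬ (a.1.val + 1 = b.1.val) := by rw [h1]; omega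
    simpa [h1, h2] using h
  · right
    by_cases h2 : a.1.val + 1 = b.1.val
    · simpa [h1, h2] using h
    · simp [h1, h2] at h

omit [DecidableEq S] in
lemma mul_strand {m : ℕ} (M : Matrix (Fin m × S) (Fin m × S) F) (B K : Matrix S S F)
    (a b : Fin m × S) : (M * strand m B K) a b =
      ∑ r, M a (b.1, r) * B r b.2 +
        ∑ c : Fin m, if c.val + 1 = b.1.val then ∑ r, M a (c, r) * K r b.2 else 0 := by
  rw [mul_apply, Fintype.sum_prod_type]
  simp only [strand, mul_add, Finset.sum_add_distrib, mul_ite, mul_zero]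
  congr 1
  · rw [Finset.sum_comm]; simp
  · apply Finset.sum_congr rfl
    intro c _
    split_ifs <;> simp

omit [DecidableEq S] in
lemma strand_mul {m : ℕ} (M : Matrix (Fin m × S) (Fin m × S) F) (B K : Matrix S S F)
    (a b : Fin m × S) : (strand m B K * M) a b =
      ∑ r, B a.2 r * M (a.1, r) b +
        ∑ c : Fin m, if a.1.val + 1 = c.val then ∑ r, K a.2 r * M (c, r) b else 0 := by
  rw [mul_apply, Fintype.sum_prod_type]
  simp only [strand, add_mul, Finset.sum_add_distrib, ite_mul, zero_mul]
  congr 1
  · rw [Finset.sum_comm]; simp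
  · apply Finset.sum_congr rfl
    intro c _
    split_ifs <;> simp

lemma pr_strand_le {m : ℕ} (B K : L → Matrix S S F) (u : List L) (a : Fin m × S) :
    ∀ b, pr (fun j => strand m (B j) (K j)) u a b ≠ 0 → a.1 ≤ b.1 := by
  induction u using List.reverseRecOn with
  | nil => intro q h; rw [one_ne h]
  | append_singleton u j ih =>
    intro q h
    rw [pr_concat] at h
    obtain ⟨r, h1, h2⟩ := mul_ne h
    have h3 := ih r h1
    rcases strand_ne h2 with h4 | h4
    · rw [← h4.1]; exact h3
    · have := h4.1
      rw [Fin.le_def] at h3 ⊢; omega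

lemma pr_strand_same {m : ℕ} (B K : L → Matrix S S F) (u : List L) (c : Fin m) (p : S) :
    ∀ q, pr (fun j => strand m (B j) (K j)) u (c, p) (c, q) = pr B u p q := by
  induction u using List.reverseRecOn with
  | nil => intro q; simp [one_apply]
  | append_singleton u j ih =>
    intro q
    rw [pr_concat, pr_concat, mul_strand, mul_apply]
    simp only [ih]
    rw [add_eq_left]
    apply Finset.sum_eq_zero
    intro c' _
    split_ifs with h
    · apply Finset.sum_eq_zero
      intro r _
      by_contra hc
      have := pr_strand_le B K u (c, p) (c', r) (left_ne_zero_of_mul hc)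
      rw [Fin.le_def] at this
      simp only at this h
      omega
    · rfl

end mat

end Pool.Agent.Lib.MP_a45045_al
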