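import Pool.Agent.Lib.MP_a45045_al.Sys

namespace Pool.Agent.Lib.MP_a45045_al

open Matrix

variable {F : Type} [Field F]

def Sys.free (U : Sys F) (m h : ℕ) (Φ : Finset U.Q) : Finset ((Fin m × U.Q) ⊕ (Fin m × U.Q)) :=
  ((Finset.univ.filter (fun c : Fin m => c.val < h)) ×ˢ Φ).disjSum
    ((Finset.univ.filter (fun c : Fin m => m ≤ c.val + h)) ×ˢ Φ)

lemma Sys.inl_mem_free (U : Sys F) {m h : ℕ} {Φ : Finset U.Q} {a : Fin m × U.Q} :
    Sum.inl a ∈ U.free m h Φ ↔ a.1.val < h ∧ a.2 ∈ Φ := by simp [Sys.free]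

lemma Sys.inr_mem_free (U : Sys F) {m h : ℕ} {Φ : Finset U.Q} {a : Fin m × U.Q} :
    Sum.inr a ∈ U.free m h Φ ↔ m ≤ a.1.val + h ∧ a.2 ∈ Φ := by simp [Sys.free]

lemma Sys.card_free (U : Sys F) {m h : ℕ} (hh : h ≤ m) (Φ : Finset U.Q) :
    (U.free m h Φ).card = 2 * h * Φ.card := by
  have h1 : (Finset.univ.filter (fun c : Fin m => c.val < h)).card = h := by
    rw [Fin.card_filter_val_lt]; omega
  have h2 : (Finset.univ.filter (fun c : Fin m => m ≤ c.val + h)).card = h := by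
    have h3 := Finset.card_filter_add_card_filter_not (s := Finset.univ)
      (fun c : Fin m => c.val < m - h)
    rw [Fin.card_filter_val_lt] at h3
    have h4 : (Finset.univ.filter (fun c : Fin m => m ≤ c.val + h)) =
        Finset.univ.filter (fun c : Fin m => ¬ c.val < m - h) := by
      apply Finset.filter_congr; intro c _; omega
    rw [h4]
    simp only [Finset.card_univ, Fintype.card_fin] at h3
    omega
  rw [Sys.free, Finset.card_disjSum, Finset.card_product, Finset.card_product, h1, h2]; ring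

/-- two chains of copies joined by jumps -/
def Sys.ext (U : Sys F) (m h ρ : ℕ) (hm : 0 < m)
    (Z : L → Matrix (Fin m × U.Q) (Fin m × U.Q) F) : Sys F where
  Q := (Fin m × U.Q) ⊕ (Fin m × U.Q)
  X j := fromBlocks (U.Y m j) (Z j) 0 (U.Y m j)
  π := Sum.elim U.lev (fun b => U.lev b + ρ)
  ht := Sum.elim (fun a => a.1.val * U.H + U.ht a.2) (fun b => (m + b.1.val) * U.H + U.ht b.2)
  H := 2 * m * U.H
  l := m * U.l + ρ
  i := Sum.inl (⟨0, hm⟩, U.i)
  o := Sum.inr (⟨m - 1, by omega⟩, U.o)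
  Φ0 := U.free m h U.Φ0
  Φ1 := U.free m h U.Φ1

structure Jump (U : Sys F) (m h ρ : ℕ) (Z : L → Matrix (Fin m × U.Q) (Fin m × U.Q) F) : Prop where
  jmp : ∀ j a b, Z j a b ≠ 0 → j.val % 2 = 0 ∧ a.2 ∈ U.Φ0 ∧ b.2 ∈ U.Φ1 ∧ h + 2 ≤ a.1.val ∧
    b.1.val + h + 3 ≤ m ∧ U.lev b + ρ ≤ U.lev a + 1
  rho_even : ρ % 2 = 0
  rho_ge : h * U.l ≤ ρ
  len_mod : (m * U.l + ρ) % 4 = 2
  h_pos : 0 < h
  h_le : h ≤ m
  card : (m - h) * Fintype.card U.Q < h

def Sys.jt (U : Sys F) {m : ℕ} (ρ : ℕ) (Z : Matrix (Fin m × U.Q) (Fin m × U.Q) F) :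
    Matrix (Fin m × U.Q) (Fin m × U.Q) F :=
  fun a b => if U.lev b + ρ = U.lev a + 1 then Z a b else 0

lemma ext_ne {U : Sys F} {m h ρ : ℕ} {hm : 0 < m} {Z : L → Matrix (Fin m × U.Q) (Fin m × U.Q) F}
    {j : L} {p q : (U.ext m h ρ hm Z).Q} (hp : (U.ext m h ρ hm Z).X j p q ≠ 0) :
    (∃ a b, p = Sum.inl a ∧ q = Sum.inl b ∧ U.Y m j a b ≠ 0) ∨
    (∃ a b, p = Sum.inr a ∧ q = Sum.inr b ∧ U.Y m j a b ≠ 0) ∨
    (∃ a b, p = Sum.inl a ∧ q = Sum.inr b ∧ Z j a b ≠ 0) := by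
  rcases p with a | a <;> rcases q with b | b
  · exact Or.inl ⟨a, b, rfl, rfl, hp⟩
  · exact Or.inr (Or.inr ⟨a, b, rfl, rfl, hp⟩)
  · exact absurd rfl hp
  · exact Or.inr (Or.inl ⟨a, b, rfl, rfl, hp⟩)

namespace Good

variable {U : Sys F} (hU : Good U)
include hU

lemma lev_mod {m : ℕ} (a : Fin m × U.Q) : U.lev a % 2 = U.π a.2 % 2 := by
  have h := hU.l_mod
  obtain ⟨q, hq⟩ : ∃ q, U.l = 2 * q := ⟨U.l / 2, by omega⟩
  have : a.1.val * U.l = 2 * (a.1.val * q) := by rw [hq]; ring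
  unfold Sys.lev; omega

lemma Y_edge {m : ℕ} {j : L} {a b : Fin m × U.Q} (h : U.Y m j a b ≠ 0) :
    U.lev b ≤ U.lev a + 1 ∧ U.lev a % 2 = j.val % 2 ∧ U.lev b % 2 ≠ j.val % 2 ∧
      a.1.val * U.H + U.ht a.2 < b.1.val * U.H + U.ht b.2 := by
  rw [hU.lev_mod, hU.lev_mod]
  rcases Y_ne h with ⟨h1, h2⟩ | ⟨h1, h2, h3, h4⟩
  · have := hU.e_pi _ _ _ h2
    have := hU.e_ht _ _ _ h2
    refine ⟨?_, hU.e_p _ _ _ h2, hU.e_q _ _ _ h2, ?_⟩
    · unfold Sys.lev; rw [h1]; omega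
    · rw [h1]; omega
  · have h5 := hU.pi_o
    have h6 := hU.l_mod
    rw [h3, h4, hU.pi_i]
    refine ⟨?_, by omega, by omega, lev_aux (hU.ht_lt _) (by omega)⟩
    unfold Sys.lev; rw [h3, h4, hU.pi_i, ← h1]; nlinarith

lemma ext_top {m h ρ : ℕ} {hm : 0 < m} {Z : L → Matrix (Fin m × U.Q) (Fin m × U.Q) F} (j : L) :
    top (U.ext m h ρ hm Z).π ((U.ext m h ρ hm Z).X j) =
      fromBlocks (U.G m j) (U.jt ρ (Z j)) 0 (U.G m j) := by
  rw [← hU.top_Y]
  ext p q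
  rcases p with a | a <;> rcases q with b | b
  · rfl
  · rfl
  · simp [top, Sys.ext]
  · simp only [top, Sys.ext, Sum.elim_inr, fromBlocks_apply₂₂]
    apply if_congr _ rfl rfl
    omega

lemma ext_uniq {m h ρ : ℕ} {hm : 0 < m} {Z : L → Matrix (Fin m × U.Q) (Fin m × U.Q) F}
    (hJ : Jump U m h ρ Z) {Φ : Finset U.Q} (hΦ : ∀ a ∈ Φ, U.Uniq a) :
    ∀ a ∈ U.free m h Φ, (U.ext m h ρ hm Z).Uniq a := by
  have h0 := hJ.rho_ge
  rintro (a | a) ha (q | q) hq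
  · rw [U.inl_mem_free] at ha
    have := hU.lev_inj (show U.lev q = U.lev a from hq)
    rw [Prod.ext this.1 (hΦ _ ha.2 _ this.2)]
  · rw [U.inl_mem_free] at ha
    have h1 : U.lev q + ρ = U.lev a := hq
    have := lev_aux (q := 0) (hU.pi_lt a.2) ha.1
    unfold Sys.lev at h1; omega
  · rw [U.inr_mem_free] at ha
    have h1 : U.lev q = U.lev a + ρ := hq
    have h2 := hU.lev_lt q
    have h3 := lev_aux2 (l := U.l) ha.1
    unfold Sys.lev at h1 h2
    rw [add_mul] at h3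
    omega
  · rw [U.inr_mem_free] at ha
    have h1 : U.lev q + ρ = U.lev a + ρ := hq
    have := hU.lev_inj (show U.lev q = U.lev a by omega)
    rw [Prod.ext this.1 (hΦ _ ha.2 _ this.2)]

omit hU in
lemma ext_card {m h ρ : ℕ} {Z : L → Matrix (Fin m × U.Q) (Fin m × U.Q) F}
    (hJ : Jump U m h ρ Z) {Φ : Finset U.Q} (hΦ : Fintype.card U.Q < 3 * Φ.card) :
    Fintype.card ((Fin m × U.Q) ⊕ (Fin m × U.Q)) < 3 * (U.free m h Φ).card := by
  rw [U.card_free hJ.h_le]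
  simp only [Fintype.card_sum, Fintype.card_prod, Fintype.card_fin]
  have h1 := hJ.card
  obtain ⟨k, rfl⟩ : ∃ k, m = h + k := ⟨m - h, by have := hJ.h_le; omega⟩
  simp only [Nat.add_sub_cancel_left] at h1
  have h2 : h * (Fintype.card U.Q + 1) ≤ h * (3 * Φ.card) := Nat.mul_le_mul_left _ hΦ
  nlinarith

lemma Y_fs {m : ℕ} {b : Fin m × U.Q} (hb : b.2 ∈ U.Φ1) {j j' : L} (a : Fin m × U.Q)
    (hj : j.val % 2 = 0) (hj' : j'.val % 2 = 0) : U.Y m j a b = U.Y m j' a b := by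
  simp [Sys.Y, strand, Sys.link, hj, hj', hU.fs _ hb j j' a.2 hj hj']

theorem good_ext {m h ρ : ℕ} {hm : 0 < m} {Z : L → Matrix (Fin m × U.Q) (Fin m × U.Q) F}
    (hJ : Jump U m h ρ Z)
    (hP : ∀ x, Tgt x → dl (U.G m) (U.G m) (fun j => U.jt ρ (Z j)) (seg x (m * U.l + ρ - 1))
      (⟨0, hm⟩, U.i) (⟨m - 1, by omega⟩, U.o) ≠ 0) : Good (U.ext m h ρ hm Z) where
  e_pi j p q hp := by
    rcases ext_ne hp with ⟨a, b, rfl, rfl, h1⟩ | ⟨a, b, rfl, rfl, h1⟩ | ⟨a, b, rfl, rfl, h1⟩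
    · exact (hU.Y_edge h1).1
    · have := (hU.Y_edge h1).1
      change U.lev b + ρ ≤ U.lev a + ρ + 1
      omega
    · exact (hJ.jmp _ _ _ h1).2.2.2.2.2
  e_p j p q hp := by
    have := hJ.rho_even
    rcases ext_ne hp with ⟨a, b, rfl, rfl, h1⟩ | ⟨a, b, rfl, rfl, h1⟩ | ⟨a, b, rfl, rfl, h1⟩
    · exact (hU.Y_edge h1).2.1
    · have := (hU.Y_edge h1).2.1
      change (U.lev a + ρ) % 2 = _
      omega
    · have h2 := hJ.jmp _ _ _ h1
      change U.lev a % 2 = _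
      rw [hU.lev_mod, hU.par0 _ h2.2.1, h2.1]
  e_q j p q hp := by
    have := hJ.rho_even
    rcases ext_ne hp with ⟨a, b, rfl, rfl, h1⟩ | ⟨a, b, rfl, rfl, h1⟩ | ⟨a, b, rfl, rfl, h1⟩
    · exact (hU.Y_edge h1).2.2.1
    · have := (hU.Y_edge h1).2.2.1
      change (U.lev b + ρ) % 2 ≠ _
      omega
    · have h2 := hJ.jmp _ _ _ h1
      have h3 := hU.lev_mod b
      have h4 := hU.par1 _ h2.2.2.1
      change (U.lev b + ρ) % 2 ≠ _
      omega
  e_ht j p q hp := by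
    rcases ext_ne hp with ⟨a, b, rfl, rfl, h1⟩ | ⟨a, b, rfl, rfl, h1⟩ | ⟨a, b, rfl, rfl, h1⟩
    · exact (hU.Y_edge h1).2.2.2
    · have := (hU.Y_edge h1).2.2.2
      change (m + a.1.val) * U.H + U.ht a.2 < (m + b.1.val) * U.H + U.ht b.2
      rw [add_mul, add_mul]; omega
    · exact lev_aux (hU.ht_lt _) (by have := a.1.2; omega)
  ht_lt p := by
    rcases p with a | a
    · exact lev_aux (q := 0) (hU.ht_lt _) (by have := a.1.2; omega)
    · exact lev_aux (q := 0) (hU.ht_lt _) (by have := a.1.2; omega)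
  pi_lt p := by
    rcases p with a | a
    · have := hU.lev_lt a
      change U.lev a < m * U.l + ρ
      omega
    · have := hU.lev_lt a
      change U.lev a + ρ < m * U.l + ρ
      omega
  l_mod := hJ.len_mod
  pi_i := by simp [Sys.ext, Sys.lev, hU.pi_i]
  pi_o := by
    have := hU.pi_o
    obtain ⟨k, rfl⟩ : ∃ k, m = k + 1 := ⟨m - 1, by omega⟩
    simp only [Sys.ext, Sys.lev, Sum.elim_inr, Nat.add_sub_cancel]
    nlinarith
  i_mem := U.inl_mem_free.2 ⟨hJ.h_pos, hU.i_mem⟩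
  o_mem := U.inr_mem_free.2 ⟨by have := hJ.h_pos; simp only; omega, hU.o_mem⟩
  par0 := by
    have := hJ.rho_even
    rintro (a | a) ha
    · have h1 := hU.par0 _ (U.inl_mem_free.1 ha).2
      have h2 := hU.lev_mod a
      change U.lev a % 2 = 0
      omega
    · have h1 := hU.par0 _ (U.inr_mem_free.1 ha).2
      have h2 := hU.lev_mod a
      change (U.lev a + ρ) % 2 = 0
      omega
  par1 := by
    have := hJ.rho_even
    rintro (a | a) ha
    · have h1 := hU.par1 _ (U.inl_mem_free.1 ha).2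
      have h2 := hU.lev_mod a
      change U.lev a % 2 = 1
      omega
    · have h1 := hU.par1 _ (U.inr_mem_free.1 ha).2
      have h2 := hU.lev_mod a
      change (U.lev a + ρ) % 2 = 1
      omega
  uniq0 := hU.ext_uniq hJ hU.uniq0
  uniq1 := hU.ext_uniq hJ hU.uniq1
  fs := by
    rintro (b | b) hb j j' (a | a) hj hj'
    · exact hU.Y_fs (U.inl_mem_free.1 hb).2 a hj hj'
    · rfl
    · have h1 := (U.inr_mem_free.1 hb).1
      have h2 : ∀ j, Z j a b = 0 := by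
        intro j
        by_contra hc
        have := (hJ.jmp _ _ _ hc).2.2.2.2.1
        omega
      exact (h2 j).trans (h2 j').symm
    · exact hU.Y_fs (U.inr_mem_free.1 hb).2 a hj hj'
  card0 := ext_card hJ hU.card0
  card1 := ext_card hJ hU.card1
  pass x hx := by
    simp only [hU.ext_top]
    have := pr_block (U.G m) (U.G m) (fun j => U.jt ρ (Z j)) (seg x (m * U.l + ρ - 1))
    exact fun hc => hP x hx ((congrFun (congrFun this (Sum.inl _)) (Sum.inr _)).symm.trans hc)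

end Good

end Pool.Agent.Lib.MP_a45045_al
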