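import Mathlib

namespace Pool.Agent.Lib.MP_a45045_al

/-- commutator with a fixed element -/
def cm {G : Type} [Group G] (y : G) : G → G := fun a => a⁻¹ * y⁻¹ * a * y

def Engel (G : Type) [Group G] : Prop := ∀ x y : G, ∃ n : ℕ, (cm y)^[n] x = 1

/-- the statement to be refuted -/
def Hyp : Prop := ∀ (G : Type) [Group G] (H K : Subgroup G), H.Normal → K.Normal → H ⊔ K = ⊤ →
  (∀ x ∈ H, ∀ y ∈ H, ∃ n : ℕ, (cm y)^[n] x = 1) →
  (∀ x ∈ K, ∀ y ∈ K, ∃ n : ℕ, (cm y)^[n] x = 1) → Engel G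

/-- wreath product with the group of order two -/
@[ext] structure Wr (E : Type) where
  a : E
  b : E
  s : Bool

namespace Wr

variable {E : Type} [Group E]

instance : Mul (Wr E) :=
  ⟨fun x y => ⟨x.a * (if x.s then y.b else y.a), x.b * (if x.s then y.a else y.b), xor x.s y.s⟩⟩
instance : One (Wr E) := ⟨⟨1, 1, false⟩⟩
instance : Inv (Wr E) :=
  ⟨fun x => ⟨if x.s then x.b⁻¹ else x.a⁻¹, if x.s then x.a⁻¹ else x.b⁻¹, x.s⟩⟩

@[simp] lemma mul_a (x y : Wr E) : (x * y).a = x.a * (if x.s then y.b else y.a) := rfl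
@[simp] lemma mul_b (x y : Wr E) : (x * y).b = x.b * (if x.s then y.a else y.b) := rfl
@[simp] lemma mul_s (x y : Wr E) : (x * y).s = xor x.s y.s := rfl
@[simp] lemma one_a : (1 : Wr E).a = 1 := rfl
@[simp] lemma one_b : (1 : Wr E).b = 1 := rfl
@[simp] lemma one_s : (1 : Wr E).s = false := rfl
@[simp] lemma inv_a (x : Wr E) : x⁻¹.a = if x.s then x.b⁻¹ else x.a⁻¹ := rfl
@[simp] lemma inv_b (x : Wr E) : x⁻¹.b = if x.s then x.a⁻¹ else x.b⁻¹ := rfl
@[simp] lemma inv_s (x : Wr E) : x⁻¹.s = x.s := rfl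

instance : Group (Wr E) := Group.ofLeftAxioms
  (by
    rintro ⟨a, b, s⟩ ⟨a', b', s'⟩ ⟨a'', b'', s''⟩
    cases s <;> cases s' <;> ext <;> simp [mul_assoc])
  (by rintro ⟨a, b, s⟩; ext <;> simp)
  (by rintro ⟨a, b, s⟩; cases s <;> ext <;> simp)

lemma cm_s (x y : Wr E) : (cm y x).s = false := by
  simp only [cm, mul_s, inv_s]
  cases x.s <;> cases y.s <;> rfl

end Wr

lemma iter_semiconj {α β : Type} (f : α → α) (g : β → β) (e : β → α) (P : β → Prop)
    (hP : ∀ b, P b → P (g b)) (h : ∀ b, P b → f (e b) = e (g b)) (n : ℕ) :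
    ∀ b, P b → f^[n] (e b) = e (g^[n] b) := by
  induction n with
  | zero => intro b _; rfl
  | succ n ih =>
    intro b hb
    rw [Function.iterate_succ_apply, Function.iterate_succ_apply, h b hb, ih _ (hP b hb)]

lemma cm_iter_add {G : Type} [Group G] {x y : G} {n : ℕ} (h : (cm y)^[n] x = 1) (k : ℕ) :
    (cm y)^[k + n] x = 1 := by
  rw [Function.iterate_add_apply, h]
  exact Function.iterate_fixed (by simp [cm]) k

lemma Engel.prod {G : Type} [Group G] (h : Engel G) : Engel (G × G) := by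
  rintro ⟨x1, x2⟩ ⟨y1, y2⟩
  obtain ⟨n1, h1⟩ := h x1 y1
  obtain ⟨n2, h2⟩ := h x2 y2
  refine ⟨n1 + n2, ?_⟩
  have : cm (y1, y2) = Prod.map (cm y1) (cm y2) := by funext ⟨a, b⟩; rfl
  rw [this, Prod.map_iterate, Prod.map_apply, cm_iter_add h2, add_comm, cm_iter_add h1]
  rfl

lemma engel_base {G : Type} [Group G] (h : Engel G) (x y : Wr G) (hx : x.s = false)
    (hy : y.s = false) : ∃ n : ℕ, (cm y)^[n] x = 1 := by
  obtain ⟨a, b, s⟩ := x
  obtain ⟨a', b', s'⟩ := y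
  simp only at hx hy
  subst hx hy
  obtain ⟨n, hn⟩ := h.prod (a, b) (a', b')
  refine ⟨n, ?_⟩
  have := iter_semiconj (cm (⟨a', b', false⟩ : Wr G)) (cm (a', b'))
    (fun p : G × G => (⟨p.1, p.2, false⟩ : Wr G)) (fun _ => True) (fun _ _ => trivial)
    (fun p _ => by ext <;> simp [cm]) n (a, b) trivial
  rw [hn] at this
  exact this

lemma engel_step (hyp : Hyp) {E : Type} [Group E] (h : Engel (Wr E)) : Engel (Wr (Wr E)) := by
  let H : Subgroup (Wr (Wr E)) :=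
    { carrier := {g | g.s = false}
      mul_mem' := by intro a b ha hb; simp_all
      one_mem' := rfl
      inv_mem' := by intro a ha; simp_all }
  let K : Subgroup (Wr (Wr E)) :=
    { carrier := {g | g.a.s = g.b.s}
      mul_mem' := by
        rintro ⟨a, b, s⟩ ⟨a', b', s'⟩ ha hb
        cases s <;> simp_all
      one_mem' := rfl
      inv_mem' := by
        rintro ⟨a, b, s⟩ ha
        cases s <;> simp_all }
  have hH : ∀ g, g ∈ H ↔ g.s = false := fun g => Iff.rfl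
  have hK : ∀ g, g ∈ K ↔ g.a.s = g.b.s := fun g => Iff.rfl
  refine hyp _ H K ⟨?_⟩ ⟨?_⟩ ?_ (fun x hx y hy => engel_base h x y hx hy) ?_
  · intro n hn g
    rw [hH] at hn ⊢
    simp [hn]
  · rintro ⟨a, b, s⟩ hn ⟨a', b', s'⟩
    rw [hK] at hn ⊢
    simp only at hn
    cases s <;> cases s' <;> simp [hn, Bool.xor_comm, Bool.xor_left_comm]
  · rw [eq_top_iff]
    rintro ⟨a, b, s⟩ _
    have : (⟨a, b, s⟩ : Wr (Wr E)) = ⟨a, b, false⟩ * ⟨1, 1, s⟩ := by ext <;> simp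
    rw [this]
    exact Subgroup.mul_mem_sup rfl rfl
  · intro x hx y hy
    have h1 : (cm y x).s = false := Wr.cm_s x y
    suffices ∃ n, (cm y)^[n] (cm y x) = 1 by
      obtain ⟨n, hn⟩ := this
      exact ⟨n + 1, hn⟩
    by_cases hs : y.s = false
    · exact engel_base h _ _ h1 hs
    have h2 : (cm y x).a.s = false ∧ (cm y x).b.s = false := by
      obtain ⟨⟨a, b, s⟩, ⟨a', b', s'⟩, t⟩ := x
      obtain ⟨⟨c, d, r⟩, ⟨c', d', r'⟩, t'⟩ := y
      rw [hK] at hx hy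
      simp only at hx hy
      subst hx hy
      cases s <;> cases r <;> cases t <;> cases t' <;> simp [cm]
    generalize cm y x = z at h1 h2
    obtain ⟨⟨a, b, s⟩, ⟨a', b', s'⟩, t⟩ := z
    obtain ⟨⟨c, d, r⟩, ⟨c', d', r'⟩, t'⟩ := y
    rw [hK] at hy
    simp only [Bool.not_eq_false] at h1 h2 hy hs
    obtain ⟨h2, h3⟩ := h2
    subst h1 h2 h3 hy hs
    cases r
    · obtain ⟨n, hn⟩ := h.prod (⟨a, a', false⟩, ⟨b, b', false⟩) (⟨c, c', true⟩, ⟨d, d', true⟩)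
      refine ⟨n, ?_⟩
      have := iter_semiconj (cm (⟨⟨c, d, false⟩, ⟨c', d', false⟩, true⟩ : Wr (Wr E)))
        (cm ((⟨c, c', true⟩ : Wr E), (⟨d, d', true⟩ : Wr E)))
        (fun p => ⟨⟨p.1.a, p.2.a, false⟩, ⟨p.1.b, p.2.b, false⟩, false⟩)
        (fun p => p.1.s = false ∧ p.2.s = false)
        (fun p _ => ⟨Wr.cm_s _ _, Wr.cm_s _ _⟩)
        (fun p hp => by ext <;> simp [cm, hp.1, hp.2]) n (⟨a, a', false⟩, ⟨b, b', false⟩)
        ⟨rfl, rfl⟩
      rw [hn] at this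
      exact this
    · obtain ⟨n, hn⟩ := h.prod (⟨a, b', false⟩, ⟨b, a', false⟩) (⟨c, d', true⟩, ⟨d, c', true⟩)
      refine ⟨n, ?_⟩
      have := iter_semiconj (cm (⟨⟨c, d, true⟩, ⟨c', d', true⟩, true⟩ : Wr (Wr E)))
        (cm ((⟨c, d', true⟩ : Wr E), (⟨d, c', true⟩ : Wr E)))
        (fun p => ⟨⟨p.1.a, p.2.a, false⟩, ⟨p.2.b, p.1.b, false⟩, false⟩)
        (fun p => p.1.s = false ∧ p.2.s = false)
        (fun p _ => ⟨Wr.cm_s _ _, Wr.cm_s _ _⟩)
        (fun p hp => by ext <;> simp [cm, hp.1, hp.2]) n (⟨a, b', false⟩, ⟨b, a', false⟩)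
        ⟨rfl, rfl⟩
      rw [hn] at this
      exact this

/-- difference operator on sequences -/
def Dl {E : Type} [Group E] (x : ℤ → E) : ℤ → E := fun i => (x i)⁻¹ * x (i + 1)

def Conv (E : Type) [Group E] (n : ℕ) : Prop :=
  ∀ (c : E) (x : ℤ → E), (∀ i, x (i + n) = c⁻¹ * x i * c) → ∃ k, ∀ i, Dl^[k] x i = 1

lemma Engel.conv {E : Type} [Group E] (h : Engel E) : Conv E 1 := by
  intro c x hx
  simp only [Nat.cast_one] at hx
  have key : ∀ k (x : ℤ → E), (∀ i, x (i + 1) = c⁻¹ * x i * c) →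
      (∀ i, Dl^[k] x (i + 1) = c⁻¹ * Dl^[k] x i * c) ∧ Dl^[k] x 0 = (cm c)^[k] (x 0) := by
    intro k
    induction k with
    | zero => intro x hx; exact ⟨hx, rfl⟩
    | succ k ih =>
      intro x hx
      have h1 := ih (Dl x) (fun i => by simp only [Dl, hx]; group)
      refine ⟨h1.1, ?_⟩
      rw [Function.iterate_succ_apply, Function.iterate_succ_apply, h1.2]
      congr 1
      simp only [Dl, hx, cm]; group
  obtain ⟨k, hk⟩ := h (x 0) c
  obtain ⟨h1, h2⟩ := key k x hx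
  refine ⟨k, fun i => ?_⟩
  induction i using Int.induction_on with
  | zero => rw [h2, hk]
  | succ i ih => rw [h1, ih]; simp
  | pred i ih =>
    have := h1 (-i - 1)
    rw [sub_add_cancel, ih] at this
    have h3 : Dl^[k] x (-i - 1) = c * (c⁻¹ * Dl^[k] x (-i - 1) * c) * c⁻¹ := by group
    rw [h3, ← this]; simp

lemma Conv.double {E : Type} [Group E] {n : ℕ} (h : Conv (Wr E) n) : Conv E (2 * n) := by
  intro c x hx
  obtain ⟨k, hk⟩ := h ⟨c, 1, true⟩ (fun i => ⟨x i, x (i + n), false⟩) (fun i => by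
    have := hx i
    ext
    · simp
    · simp only [Wr.mul_b, Wr.inv_b, Wr.mul_s, Wr.inv_s]
      simp only [if_true, Bool.xor_false]
      rw [← this]; congr 1; push_cast; ring
    · simp)
  have key : ∀ k (x y : ℤ → E), Dl^[k] (fun i => (⟨x i, y i, false⟩ : Wr E)) =
      fun i => ⟨Dl^[k] x i, Dl^[k] y i, false⟩ := by
    intro k
    induction k with
    | zero => intro x y; rfl
    | succ k ih =>
      intro x y
      rw [Function.iterate_succ_apply, Function.iterate_succ_apply, Function.iterate_succ_apply,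
        ← ih]
      rfl
  refine ⟨k, fun i => ?_⟩
  have := hk i
  rw [key] at this
  exact congrArg Wr.a this

lemma conv_pow (hyp : Hyp) (k : ℕ) :
    ∀ (E : Type) [Group E], Engel (Wr E) → Conv E (2 ^ (k + 1)) := by
  induction k with
  | zero => intro E _ h; exact h.conv.double
  | succ k ih =>
    intro E _ h
    rw [pow_succ']
    exact (ih (Wr E) (engel_step hyp h)).double

lemma engel_wr_of_filt {E : Type} [Group E]
    (h : ∀ u v a b : E, ∃ (N : ℕ) (W : ℕ → Subgroup E), u ∈ W 1 ∧ v ∈ W 1 ∧ a ∈ W 1 ∧ b ∈ W 1 ∧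
      (∀ g ∈ W N, g = 1) ∧ (∀ r, W (r + 1) ≤ W r) ∧
      (∀ r, ∀ g ∈ W r, ∀ y ∈ W 1, cm y g ∈ W (r + 1)) ∧
      (∀ r, ∀ g ∈ W (r + 1), g * g ∈ W (r + 2))) : Engel (Wr E) := by
  rintro x ⟨a, b, s⟩
  obtain ⟨N, W, hu0, hv0, ha, hb, hN, hm, hc, hs⟩ :=
    h (cm ⟨a, b, s⟩ x).a (cm ⟨a, b, s⟩ x).b a b
  have key : ∀ r, ∃ n, ∃ u ∈ W (r + 1), ∃ v ∈ W (r + 1),
      (cm ⟨a, b, s⟩)^[n] x = ⟨u, v, false⟩ := by
    intro r
    induction r with
    | zero => exact ⟨1, _, hu0, _, hv0, Wr.ext rfl rfl (Wr.cm_s _ _)⟩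
    | succ r ih =>
      obtain ⟨n, u, hu, v, hv, hn⟩ := ih
      cases s
      · refine ⟨n + 1, _, hc _ _ hu _ ha, _, hc _ _ hv _ hb, ?_⟩
        rw [Function.iterate_succ_apply', hn]
        ext <;> simp [cm]
      · have h1 : ∀ u v : E, cm (⟨a, b, true⟩ : Wr E) ⟨u, v, false⟩ =
            ⟨u⁻¹ * v * cm b v, v⁻¹ * u * cm a u, false⟩ := by
          intro u v
          ext <;> simp [cm, mul_assoc]
        have h2 : ∀ u ∈ W (r + 1), ∀ v ∈ W (r + 1), ∀ k1 ∈ W (r + 2), ∀ k2 ∈ W (r + 2),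
            ∀ y ∈ W 1, (u⁻¹ * v * k1)⁻¹ * (v⁻¹ * u * k2) * cm y (v⁻¹ * u * k2) ∈ W (r + 2) := by
          intro u hu v hv k1 hk1 k2 hk2 y hy
          have h3 : v⁻¹ * u ∈ W (r + 1) := mul_mem (inv_mem hv) hu
          have h4 : (u⁻¹ * v * k1)⁻¹ * (v⁻¹ * u * k2) =
              k1⁻¹ * ((v⁻¹ * u) * (v⁻¹ * u)) * k2 := by group
          rw [h4]
          exact mul_mem (mul_mem (mul_mem (inv_mem hk1) (hs _ _ h3)) hk2)
            (hc _ _ (mul_mem h3 (hm _ hk2)) _ hy)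
        refine ⟨n + 2, _, h2 u hu v hv _ (hc _ _ hv _ hb) _ (hc _ _ hu _ ha) _ hb,
          _, h2 v hv u hu _ (hc _ _ hu _ ha) _ (hc _ _ hv _ hb) _ ha, ?_⟩
        rw [Function.iterate_succ_apply', Function.iterate_succ_apply', hn, h1, h1]
  obtain ⟨n, u, hu, v, hv, hn⟩ := key N
  exact ⟨n, by rw [hn, hN u (hm _ hu), hN v (hm _ hv)]; rfl⟩

/-- a filtration of a ring -/
structure FilR {R : Type} [Ring R] (I : ℕ → R → Prop) : Prop where
  mul : ∀ {r s a b}, I r a → I s b → I (r + s) (a * b)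
  add : ∀ {r a b}, I r a → I r b → I r (a + b)
  neg : ∀ {r a}, I r a → I r (-a)
  mono : ∀ {r s a}, I r a → s ≤ r → I s a
  one : I 0 1
  zero : ∀ r, I r 0

namespace FilR

variable {R : Type} [Ring R] {I : ℕ → R → Prop} (hI : FilR I)
include hI

lemma mul_sub {r : ℕ} {a b : R} (ha : I r (a - 1)) (hb : I r (b - 1)) : I r (a * b - 1) := by
  have : a * b - 1 = (a - 1) * (b - 1) + ((a - 1) + (b - 1)) := by noncomm_ring
  rw [this]
  exact hI.add (hI.mono (hI.mul ha hb) (by omega)) (hI.add ha hb)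

lemma zero_of {r : ℕ} {a : R} (ha : I r (a - 1)) : I 0 a := by
  have : a = (a - 1) + 1 := by simp
  rw [this]
  exact hI.add (hI.mono ha (by omega)) hI.one

/-- the congruence subgroups -/
def sub (r : ℕ) : Subgroup Rˣ where
  carrier := {g | I r (g.val - 1) ∧ I r (g⁻¹.val - 1)}
  mul_mem' := by
    rintro a b ⟨h1, h2⟩ ⟨h3, h4⟩
    exact ⟨hI.mul_sub h1 h3, by rw [mul_inv_rev]; exact hI.mul_sub h4 h2⟩
  one_mem' := ⟨by simpa using hI.zero r, by simpa using hI.zero r⟩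
  inv_mem' := by
    rintro a ⟨h1, h2⟩
    exact ⟨h2, by simpa using h1⟩

lemma comm_aux {r s : ℕ} {g y : Rˣ} (hg : g ∈ hI.sub r) (hy : y ∈ hI.sub s) :
    I (r + s) ((cm y g).val - 1) := by
  have h1 : (cm y g).val - 1 = g⁻¹.val * y⁻¹.val *
      ((g.val - 1) * (y.val - 1) + -((y.val - 1) * (g.val - 1))) := by
    have h2 : g⁻¹.val * y⁻¹.val * (y.val * g.val) = 1 := by
      rw [← Units.val_mul, ← Units.val_mul, ← Units.val_mul]; simp
    rw [← h2]
    simp only [cm, Units.val_mul, h2]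
    rw [← h2]
    nth_rewrite 2 [h2]
    nth_rewrite 2 [h2]
    nth_rewrite 2 [h2]
    nth_rewrite 2 [h2]
    noncomm_ring
  rw [h1]
  have h3 := hI.mul (hI.mul (hI.zero_of hg.2) (hI.zero_of hy.2))
    (hI.add (hI.mul hg.1 hy.1) (hI.neg (hI.mono (hI.mul hy.1 hg.1) (by omega))))
  simpa using h3

lemma comm_mem {r : ℕ} {g y : Rˣ} (hg : g ∈ hI.sub r) (hy : y ∈ hI.sub 1) :
    cm y g ∈ hI.sub (r + 1) := by
  refine ⟨hI.comm_aux hg hy, ?_⟩
  have : (cm y g)⁻¹ = cm g y := by simp only [cm]; group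
  rw [this, add_comm]
  exact hI.comm_aux hy hg

lemma sq_mem (h2 : ∀ a : R, a + a = 0) {r : ℕ} {g : Rˣ} (hg : g ∈ hI.sub (r + 1)) :
    g * g ∈ hI.sub (r + 2) := by
  have key : ∀ a : R, I (r + 1) (a - 1) → I (r + 2) (a * a - 1) := by
    intro a ha
    have : a * a - 1 = (a - 1) * (a - 1) + ((a - 1) + (a - 1)) := by noncomm_ring
    rw [this, h2, add_zero]
    exact hI.mono (hI.mul ha ha) (by omega)
  exact ⟨key _ hg.1, by rw [mul_inv_rev]; exact key _ hg.2⟩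

end FilR

end Pool.Agent.Lib.MP_a45045_al
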