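import Pool.Agent.Lib.MP_a45045_al.Ext

namespace Pool.Agent.Lib.MP_a45045_al

open Matrix

variable {F : Type} [Field F]

/-- value of a word in the group generated by the involutions -/
def Sys.gev (U : Sys F) (u : List L) : Matrix U.Q U.Q F := pr (fun j => 1 + U.X j) u

def Sys.E (U : Sys F) (T : Fin 8 → List L) (p q : U.Q) : Prop :=
  ∃ k, (U.gev (T k) - 1) p q ≠ 0

structure InvD (U : Sys F) (T : Fin 8 → List L) (d N : ℕ) (ν : U.Q → ℕ) (A Z G : U.Q → Prop) :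
    Prop where
  inc : ∀ p q, U.E T p q → ν p < ν q
  clA : ∀ p q, U.E T p q → (A p ↔ A q)
  clZ : ∀ p q, U.E T p q → (Z p ↔ Z q)
  clG : ∀ p q, U.E T p q → (G p ↔ G q)
  nearA : ∀ p, Near U.X d U.i p → A p
  nearZ : ∀ p, Near U.X d p U.o → Z p
  near0 : ∀ p, ∀ a ∈ U.Φ0, Near U.X d p a → G p
  near1 : ∀ p, ∀ b ∈ U.Φ1, Near U.X d b p → G p
  disj : ∀ p, A p → Z p → False
  AG : ∀ p, A p → G p
  ZG : ∀ p, Z p → G p
  Zlt : ∀ p, Z p → ν p < N
  Age : ∀ p, A p → N ≤ ν p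
  Glt : ∀ p, G p → ν p < 2 * N
  lt : ∀ p, ν p < 4 * N

def Inv (U : Sys F) (T : Fin 8 → List L) (d N : ℕ) : Prop := ∃ ν A Z G, InvD U T d N ν A Z G

lemma near_Y {U : Sys F} {m n : ℕ} {a b : Fin m × U.Q} (h : Near (U.Y m) n a b) :
    b.1.val ≤ a.1.val + n ∧ ((a.1 = b.1 ∧ Near U.X n a.2 b.2) ∨
      (a.1.val < b.1.val ∧ Near U.X n a.2 U.o ∧ Near U.X n U.i b.2 ∧
        (a.1.val + 1 = b.1.val ∨ Near U.X n U.i U.o))) := by
  induction h with
  | refl n p => exact ⟨by omega, Or.inl ⟨rfl, Near.refl _ _⟩⟩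
  | @step n p q r j _ h2 ih =>
    obtain ⟨ih0, ih⟩ := ih
    rcases Good.Y_ne h2 with ⟨h3, h4⟩ | ⟨h3, -, h4, h5⟩
    · refine ⟨by rw [← h3]; omega, ?_⟩
      rcases ih with ⟨h6, h7⟩ | ⟨h6, h7, h8, h9⟩
      · exact Or.inl ⟨h6.trans h3, Near.step j h7 h4⟩
      · refine Or.inr ⟨by rw [← h3]; exact h6, h7.succ, Near.step j h8 h4, ?_⟩
        rcases h9 with h9 | h9
        · left; rw [← h3]; exact h9
        · exact Or.inr h9.succ
    · refine ⟨by omega, Or.inr ?_⟩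
      rcases ih with ⟨h6, h7⟩ | ⟨h6, h7, h8, h9⟩
      · refine ⟨by rw [h6]; omega, by rw [← h4]; exact h7.succ, by rw [h5]; exact Near.refl _ _,
          Or.inl (by rw [h6]; exact h3)⟩
      · refine ⟨by omega, h7.succ, by rw [h5]; exact Near.refl _ _,
          Or.inr (by rw [← h4]; exact h8.succ)⟩

/-- shape of short paths in the extension -/
def NearExt (U : Sys F) (m : ℕ) (Z : L → Matrix (Fin m × U.Q) (Fin m × U.Q) F) (n : ℕ) :
    (Fin m × U.Q) ⊕ (Fin m × U.Q) → (Fin m × U.Q) ⊕ (Fin m × U.Q) → Prop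
  | Sum.inl a, Sum.inl b => Near (U.Y m) n a b
  | Sum.inr a, Sum.inr b => Near (U.Y m) n a b
  | Sum.inl a, Sum.inr b => ∃ j a0 b0, Z j a0 b0 ≠ 0 ∧ Near (U.Y m) n a a0 ∧ Near (U.Y m) n b0 b
  | Sum.inr _, Sum.inl _ => False

lemma near_ext {U : Sys F} {m h ρ : ℕ} {hm : 0 < m}
    {Z : L → Matrix (Fin m × U.Q) (Fin m × U.Q) F} {n : ℕ} {p q : (U.ext m h ρ hm Z).Q}
    (hp : Near (U.ext m h ρ hm Z).X n p q) : NearExt U m Z n p q := by
  induction hp with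
  | refl n p => rcases p with a | a <;> exact Near.refl _ _
  | @step n p q r j _ h2 ih =>
    rcases ext_ne h2 with ⟨a, b, rfl, rfl, h1⟩ | ⟨a, b, rfl, rfl, h1⟩ | ⟨a, b, rfl, rfl, h1⟩
    · rcases p with p | p
      · exact Near.step j ih h1
      · exact ih
    · rcases p with p | p
      · obtain ⟨j0, a0, b0, h3, h4, h5⟩ := ih
        exact ⟨j0, a0, b0, h3, h4.succ, Near.step j h5 h1⟩
      · exact Near.step j ih h1
    · rcases p with p | p
      · exact ⟨j, a, b, h1, Near.succ ih, Near.refl _ _⟩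
      · exact False.elim ih

lemma block_sub_one {S : Type} [Fintype S] [DecidableEq S] (Y Z : L → Matrix S S F)
    (u : List L) : pr (fun j => 1 + fromBlocks (Y j) (Z j) 0 (Y j)) u - 1 =
      fromBlocks (pr (fun j => 1 + Y j) u - 1)
        (dl (fun j => 1 + Y j) (fun j => 1 + Y j) Z u) 0 (pr (fun j => 1 + Y j) u - 1) := by
  have h1 : (fun j => 1 + fromBlocks (Y j) (Z j) 0 (Y j)) =
      fun j => fromBlocks (1 + Y j) (Z j) 0 (1 + Y j) := by
    funext j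
    rw [← fromBlocks_one, fromBlocks_add]; simp
  rw [h1, pr_block, ← fromBlocks_one, sub_eq_add_neg, fromBlocks_neg, fromBlocks_add]
  simp [sub_eq_add_neg]

lemma gev_ext {U : Sys F} {m h ρ : ℕ} {hm : 0 < m}
    {Z : L → Matrix (Fin m × U.Q) (Fin m × U.Q) F} {u : List L} {p q : (U.ext m h ρ hm Z).Q}
    (hk : ((U.ext m h ρ hm Z).gev u - 1) p q ≠ 0) :
      fromBlocks (pr (fun j => 1 + U.Y m j) u - 1)
        (dl (fun j => 1 + U.Y m j) (fun j => 1 + U.Y m j) Z u) 0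
        (pr (fun j => 1 + U.Y m j) u - 1) p q ≠ 0 :=
  fun hc => hk ((congrFun (congrFun (block_sub_one (U.Y m) Z u) p) q).trans hc)

section pres

variable {U : Sys F} {T : Fin 8 → List L} {d N : ℕ} {ν : U.Q → ℕ} {A Z G : U.Q → Prop}
  (hI : InvD U T d N ν A Z G)
include hI

lemma InvD.near_Y {m : ℕ} {a b : Fin m × U.Q} (h : Near (U.Y m) d a b) :
    (a.1 = b.1 ∧ Near U.X d a.2 b.2) ∨ (a.1.val + 1 = b.1.val ∧ Z a.2 ∧ A b.2) := by
  rcases (MP_a45045_al.near_Y h).2 with h1 | ⟨-, h2, h3, h4 | h4⟩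
  · exact Or.inl h1
  · exact Or.inr ⟨h4, hI.nearZ _ h2, hI.nearA _ h3⟩
  · exact absurd (hI.nearZ _ (Near.refl _ _)) (hI.disj _ (hI.nearA _ h4))

lemma InvD.E_Y (hT : ∀ k, (T k).length ≤ d) {m : ℕ} {a b : Fin m × U.Q} {k : Fin 8}
    (h : (pr (fun j => 1 + U.Y m j) (T k) - 1) a b ≠ 0) :
    (a.1 = b.1 ∧ U.E T a.2 b.2) ∨ (a.1.val + 1 = b.1.val ∧ Z a.2 ∧ A b.2) := by
  obtain ⟨c, p⟩ := a
  obtain ⟨c', q⟩ := b
  by_cases hc : c = c'
  · subst hc
    refine Or.inl ⟨rfl, k, ?_⟩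
    have h1 : (fun j => 1 + U.Y m j) = fun j => strand m (1 + U.X j) (U.link j) := by
      funext j; exact one_add_strand _ _ _
    rw [h1, Matrix.sub_apply, pr_strand_same] at h
    simpa [Sys.gev, one_apply] using h
  · have h1 : pr (fun j => 1 + U.Y m j) (T k) (c, p) (c', q) ≠ 0 := by
      simpa [one_apply, hc] using h
    rcases hI.near_Y ((near_of_pr _ _ _ _ h1).mono (hT k)) with h2 | h2
    · exact absurd h2.1 hc
    · exact Or.inr h2

variable {m h ρ : ℕ} {hm : 0 < m} {W : L → Matrix (Fin m × U.Q) (Fin m × U.Q) F}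
  (hJ : Jump U m h ρ W)
include hJ

lemma InvD.near_jump {a b : Fin m × U.Q} (hn : NearExt U m W d (Sum.inl a) (Sum.inr b)) :
    G a.2 ∧ h + 1 ≤ a.1.val ∧ b.1.val + h + 2 ≤ m ∧ G b.2 ∧ (b.1.val + h + 3 ≤ m ∨ A b.2) := by
  obtain ⟨j, a0, b0, h1, h2, h3⟩ := hn
  obtain ⟨-, h4, h5, h6, h7, -⟩ := hJ.jmp _ _ _ h1
  have h8 : G a.2 ∧ h + 1 ≤ a.1.val := by
    rcases hI.near_Y h2 with ⟨h8, h9⟩ | ⟨h8, h9, -⟩
    · exact ⟨hI.near0 _ _ h4 h9, by rw [h8]; omega⟩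
    · exact ⟨hI.ZG _ h9, by omega⟩
  refine ⟨h8.1, h8.2, ?_⟩
  rcases hI.near_Y h3 with ⟨h8, h9⟩ | ⟨h8, -, h9⟩
  · rw [← h8]
    exact ⟨by omega, hI.near1 _ _ h5 h9, Or.inl h7⟩
  · exact ⟨by omega, hI.AG _ h9, Or.inr h9⟩

lemma InvD.E_ext (hT : ∀ k, (T k).length ≤ d) {p q : (U.ext m h ρ hm W).Q}
    (hE : (U.ext m h ρ hm W).E T p q) :
    (∃ a b, p = Sum.inl a ∧ q = Sum.inl b ∧
      ((a.1 = b.1 ∧ U.E T a.2 b.2) ∨ (a.1.val + 1 = b.1.val ∧ Z a.2 ∧ A b.2))) ∨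
    (∃ a b, p = Sum.inr a ∧ q = Sum.inr b ∧
      ((a.1 = b.1 ∧ U.E T a.2 b.2) ∨ (a.1.val + 1 = b.1.val ∧ Z a.2 ∧ A b.2))) ∨
    (∃ a b, p = Sum.inl a ∧ q = Sum.inr b ∧ G a.2 ∧ h + 1 ≤ a.1.val ∧ b.1.val + h + 2 ≤ m ∧
      G b.2 ∧ (b.1.val + h + 3 ≤ m ∨ A b.2)) := by
  obtain ⟨k, hk⟩ := hE
  have h1 : p ≠ q → Near (U.ext m h ρ hm W).X d p q := by
    intro hpq
    rw [Matrix.sub_apply, one_apply_ne hpq, sub_zero] at hk
    exact (near_of_pr _ _ _ _ hk).mono (hT k)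
  replace hk := gev_ext hk
  rcases p with a | a <;> rcases q with b | b
  · exact Or.inl ⟨a, b, rfl, rfl, hI.E_Y hT hk⟩
  · exact Or.inr (Or.inr ⟨a, b, rfl, rfl, hI.near_jump hJ (near_ext (h1 Sum.inl_ne_inr))⟩)
  · exact absurd rfl hk
  · exact Or.inr (Or.inl ⟨a, b, rfl, rfl, hI.E_Y hT hk⟩)

open Classical in
theorem InvD.ext (hT : ∀ k, (T k).length ≤ d) : Inv (U.ext m h ρ hm W) T d N := by
  have hh := hJ.h_pos
  have hle := hJ.h_le
  refine ⟨Sum.elim (fun a => ν a.2) (fun b => ν b.2 +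
      if (b.1.val + h + 3 ≤ m ∧ G b.2) ∨ (b.1.val + h + 2 = m ∧ A b.2) then 2 * N else 0),
    Sum.elim (fun a => a.1.val = 0 ∧ A a.2) (fun _ => False),
    Sum.elim (fun _ => False) (fun b => b.1.val + 1 = m ∧ Z b.2),
    Sum.elim (fun a => (a.1.val < h ∧ G a.2) ∨ (a.1.val = h ∧ A a.2))
      (fun b => (m ≤ b.1.val + h ∧ G b.2) ∨ (b.1.val + h + 1 = m ∧ Z b.2)),
    ?_, ?_, ?_, ?_, ?_, ?_, ?_, ?_, ?_, ?_, ?_, ?_, ?_, ?_, ?_⟩
  · intro p q hE
    rcases hI.E_ext hJ hT hE with ⟨a, b, rfl, rfl, ⟨h1, h2⟩ | ⟨h1, h2, h3⟩⟩ |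
      ⟨a, b, rfl, rfl, ⟨h1, h2⟩ | ⟨h1, h2, h3⟩⟩ | ⟨a, b, rfl, rfl, h1, h2, h3, h4, h5⟩
    · exact hI.inc _ _ h2
    · exact lt_of_lt_of_le (hI.Zlt _ h2) (hI.Age _ h3)
    · simp only [Sum.elim_inr, h1, hI.clA _ _ h2, hI.clG _ _ h2]
      have := hI.inc _ _ h2
      omega
    · simp only [Sum.elim_inr]
      have h4 := hI.Zlt _ h2
      have h5 := hI.Age _ h3
      have h6 : ¬ A a.2 := fun h7 => hI.disj _ h7 h2
      have h7 := hI.AG _ h3
      simp only [h3, h6, h7, and_true, and_false, or_false]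
      split_ifs <;> omega
    · simp only [Sum.elim_inr, Sum.elim_inl]
      have h6 := hI.Glt _ h1
      rw [if_pos]
      · omega
      · rcases h5 with h5 | h5
        · exact Or.inl ⟨h5, h4⟩
        · by_cases h7 : b.1.val + h + 2 = m
          · exact Or.inr ⟨h7, h5⟩
          · exact Or.inl ⟨by omega, h4⟩
  · intro p q hE
    rcases hI.E_ext hJ hT hE with ⟨a, b, rfl, rfl, ⟨h1, h2⟩ | ⟨h1, h2, h3⟩⟩ |
      ⟨a, b, rfl, rfl, -⟩ | ⟨a, b, rfl, rfl, h1, h2, h3, h4, h5⟩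
    · simp only [Sum.elim_inl, h1, hI.clA _ _ h2]
    · simp only [Sum.elim_inl]
      exact iff_of_false (fun h4 => hI.disj _ h4.2 h2) (by omega)
    · rfl
    · simp only [Sum.elim_inl, Sum.elim_inr]
      exact iff_of_false (by omega) id
  · intro p q hE
    rcases hI.E_ext hJ hT hE with ⟨a, b, rfl, rfl, -⟩ |
      ⟨a, b, rfl, rfl, ⟨h1, h2⟩ | ⟨h1, h2, h3⟩⟩ | ⟨a, b, rfl, rfl, h1, h2, h3, h4, h5⟩
    · rfl
    · simp only [Sum.elim_inr, h1, hI.clZ _ _ h2]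
    · simp only [Sum.elim_inr]
      have := b.1.2
      exact iff_of_false (by omega) (fun h4 => hI.disj _ h3 h4.2)
    · simp only [Sum.elim_inl, Sum.elim_inr]
      exact iff_of_false id (by omega)
  · intro p q hE
    rcases hI.E_ext hJ hT hE with ⟨a, b, rfl, rfl, ⟨h1, h2⟩ | ⟨h1, h2, h3⟩⟩ |
      ⟨a, b, rfl, rfl, ⟨h1, h2⟩ | ⟨h1, h2, h3⟩⟩ | ⟨a, b, rfl, rfl, h1, h2, h3, h4, h5⟩
    · simp only [Sum.elim_inl, h1, hI.clA _ _ h2, hI.clG _ _ h2]
    · have h6 : ¬ A a.2 := fun h7 => hI.disj _ h7 h2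
      simp only [Sum.elim_inl, h3, h6, hI.AG _ h3, hI.ZG _ h2, and_true, and_false, or_false]
      omega
    · simp only [Sum.elim_inr, h1, hI.clZ _ _ h2, hI.clG _ _ h2]
    · have h6 : ¬ Z b.2 := fun h7 => hI.disj _ h3 h7
      simp only [Sum.elim_inr, h2, h6, hI.AG _ h3, hI.ZG _ h2, and_true, and_false, or_false]
      omega
    · simp only [Sum.elim_inl, Sum.elim_inr]
      exact iff_of_false (by omega) (by omega)
  · rintro (a | a) hn
    · rcases hI.near_Y (near_ext hn) with ⟨h1, h2⟩ | ⟨-, h2, -⟩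
      · exact ⟨by rw [← h1], hI.nearA _ h2⟩
      · exact absurd h2 (hI.disj _ (hI.nearA _ (Near.refl _ _)))
    · have := (hI.near_jump hJ (near_ext hn)).2.1
      simp at this
  · rintro (a | a) hn
    · have := (hI.near_jump hJ (near_ext hn)).2.2.1
      simp only at this
      omega
    · rcases hI.near_Y (near_ext hn) with ⟨h1, h2⟩ | ⟨-, -, h2⟩
      · exact ⟨by rw [h1]; simp only; omega, hI.nearZ _ h2⟩
      · exact absurd (hI.nearZ _ (Near.refl _ _)) (hI.disj _ h2)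
  · rintro (p | p) (a | a) ha hn
    · obtain ⟨h3, h4⟩ := U.inl_mem_free.1 ha
      rcases hI.near_Y (near_ext hn) with ⟨h1, h2⟩ | ⟨h1, h2, -⟩
      · exact Or.inl ⟨by rw [h1]; exact h3, hI.near0 _ _ h4 h2⟩
      · exact Or.inl ⟨by omega, hI.ZG _ h2⟩
    · obtain ⟨h3, h4⟩ := U.inr_mem_free.1 ha
      have := (hI.near_jump hJ (near_ext hn)).2.2.1
      omega
    · exact False.elim (near_ext hn)
    · obtain ⟨h3, h4⟩ := U.inr_mem_free.1 ha
      rcases hI.near_Y (near_ext hn) with ⟨h1, h2⟩ | ⟨h1, h2, -⟩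
      · exact Or.inl ⟨by rw [h1]; exact h3, hI.near0 _ _ h4 h2⟩
      · by_cases h5 : p.1.val + h + 1 = m
        · exact Or.inr ⟨h5, h2⟩
        · exact Or.inl ⟨by omega, hI.ZG _ h2⟩
  · rintro (p | p) (a | a) ha hn
    · obtain ⟨h3, h4⟩ := U.inl_mem_free.1 ha
      rcases hI.near_Y (near_ext hn) with ⟨h1, h2⟩ | ⟨h1, -, h2⟩
      · exact Or.inl ⟨by rw [← h1]; exact h3, hI.near1 _ _ h4 h2⟩
      · by_cases h5 : p.1.val = h
        · exact Or.inr ⟨h5, h2⟩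
        · exact Or.inl ⟨by omega, hI.AG _ h2⟩
    · exact False.elim (near_ext hn)
    · obtain ⟨h3, h4⟩ := U.inl_mem_free.1 ha
      have := (hI.near_jump hJ (near_ext hn)).2.1
      omega
    · obtain ⟨h3, h4⟩ := U.inr_mem_free.1 ha
      rcases hI.near_Y (near_ext hn) with ⟨h1, h2⟩ | ⟨h1, -, h2⟩
      · exact Or.inl ⟨by rw [← h1]; exact h3, hI.near1 _ _ h4 h2⟩
      · exact Or.inl ⟨by omega, hI.AG _ h2⟩
  · rintro (p | p) h1 h2
    · exact h2
    · exact h1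
  · rintro (p | p) h1
    · exact Or.inl ⟨by have := h1.1; omega, hI.AG _ h1.2⟩
    · exact False.elim h1
  · rintro (p | p) h1
    · exact False.elim h1
    · exact Or.inl ⟨by have := h1.1; omega, hI.ZG _ h1.2⟩
  · rintro (p | p) h1
    · exact False.elim h1
    · have h2 := h1.1
      simp only [Sum.elim_inr]
      rw [if_neg (by omega)]
      exact hI.Zlt _ h1.2
  · rintro (p | p) h1
    · exact hI.Age _ h1.2
    · exact False.elim h1
  · rintro (p | p) h1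
    · rcases h1 with h1 | h1
      · exact hI.Glt _ h1.2
      · exact hI.Glt _ (hI.AG _ h1.2)
    · simp only [Sum.elim_inr] at h1 ⊢
      rw [if_neg (by omega)]
      rcases h1 with h1 | h1
      · exact hI.Glt _ h1.2
      · exact hI.Glt _ (hI.ZG _ h1.2)
  · rintro (p | p)
    · exact hI.lt _
    · simp only [Sum.elim_inr]
      split_ifs with h1
      · have : G p.2 := by
          rcases h1 with h1 | h1
          · exact h1.2
          · exact hI.AG _ h1.2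
        have := hI.Glt _ this
        omega
      · exact hI.lt _

end pres

lemma Good.E_ht {U : Sys F} (hU : Good U) {T : Fin 8 → List L} {p q : U.Q} (h : U.E T p q) :
    U.ht p < U.ht q := by
  obtain ⟨k, hk⟩ := h
  exact fil_pr U.ht U.X hU.e_ht (T k) p q hk

theorem inv_create {U : Sys F} {T : Fin 8 → List L} {d m h ρ : ℕ} {hm : 0 < m}
    {W : L → Matrix (Fin m × U.Q) (Fin m × U.Q) F} (hJ : Jump U m h ρ W)
    (hG : Good (U.ext m h ρ hm W)) (hd : d ≤ h)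
    (hT : ∀ k, dl (fun j => 1 + U.Y m j) (fun j => 1 + U.Y m j) W (T k) = 0) :
    Inv (U.ext m h ρ hm W) T d (U.ext m h ρ hm W).H := by
  have hE : ∀ p q, (U.ext m h ρ hm W).E T p q → p.isLeft = q.isLeft := by
    rintro p q ⟨k, hk⟩
    replace hk := gev_ext hk
    rw [hT] at hk
    rcases p with a | a <;> rcases q with b | b
    · rfl
    · exact absurd rfl hk
    · exact absurd rfl hk
    · rfl
  refine ⟨fun p => (U.ext m h ρ hm W).ht p + if p.isLeft then (U.ext m h ρ hm W).H else 0,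
    fun p => p.isLeft, fun p => ¬ p.isLeft, fun _ => True,
    ?_, ?_, ?_, ?_, ?_, ?_, ?_, ?_, ?_, ?_, ?_, ?_, ?_, ?_, ?_⟩
  · intro p q h1
    have := hG.E_ht h1
    rw [hE p q h1]; omega
  · intro p q h1; rw [hE p q h1]
  · intro p q h1; rw [hE p q h1]
  · intro p q h1; rfl
  · rintro (a | a) hn
    · rfl
    · obtain ⟨j, a0, b0, h1, h2, -⟩ := near_ext hn
      have h3 := (near_Y h2).1
      have h4 := (hJ.jmp _ _ _ h1).2.2.2.1
      simp only at h3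
      omega
  · rintro (a | a) hn
    · obtain ⟨j, a0, b0, h1, -, h2⟩ := near_ext hn
      have h3 := (near_Y h2).1
      have h4 := (hJ.jmp _ _ _ h1).2.2.2.2.1
      simp only at h3
      omega
    · simp
  · intros; trivial
  · intros; trivial
  · intro p h1 h2; exact h2 h1
  · intros; trivial
  · intros; trivial
  · intro p h1
    rw [if_neg h1]
    exact hG.ht_lt p
  · intro p h1
    rw [if_pos h1]; omega
  · intro p _
    have := hG.ht_lt p
    split_ifs <;> omega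
  · intro p
    have := hG.ht_lt p
    split_ifs <;> omega

end Pool.Agent.Lib.MP_a45045_al
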