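import Pool.Agent.Lib.MP_a45045_al.Step
import Pool.Agent.Lib.MP_a45045_al.Group

namespace Pool.Agent.Lib.MP_a45045_al

open Matrix

variable {F : Type} [Field F] [CharP F 2] (U : ℕ → Sys F) (hU : ∀ k, Good (U k))

abbrev RR (U : ℕ → Sys F) : Type := ∀ k, Matrix (U k).Q (U k).Q F

lemma RR_two (a : RR U) : a + a = 0 := by
  funext k; ext p q
  exact CharTwo.add_self_eq_zero _

include hU in
lemma y_sq (j : L) : ((fun k => 1 + (U k).X j) : RR U) * (fun k => 1 + (U k).X j) = 1 := by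
  funext k
  have h1 := (hU k).X_sq j
  have h2 : (U k).X j + (U k).X j = 0 := congrFun (RR_two U (fun k => (U k).X j)) k
  change (1 + (U k).X j) * (1 + (U k).X j) = 1
  have : (1 + (U k).X j) * (1 + (U k).X j) =
      1 + ((U k).X j + (U k).X j) + (U k).X j * (U k).X j := by noncomm_ring
  rw [this, h1, h2]; simp

/-- the generating involutions -/
def yy (j : L) : (RR U)ˣ :=
  ⟨fun k => 1 + (U k).X j, fun k => 1 + (U k).X j, y_sq U hU j, y_sq U hU j⟩

lemma yy_inv (j : L) : (yy U hU j)⁻¹ = yy U hU j := rfl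

lemma pr_yy_inv (u : List L) : (pr (yy U hU) u)⁻¹ = pr (yy U hU) u.reverse := by
  induction u with
  | nil => simp
  | cons j u ih => rw [pr_cons, _root_.mul_inv_rev, ih, yy_inv]; simp

lemma pr_yy_val (u : List L) (k : ℕ) : (pr (yy U hU) u).val k = (U k).gev u := by
  induction u with
  | nil => rfl
  | cons j u ih =>
    rw [pr_cons, Units.val_mul, Pi.mul_apply, ih]
    rfl

/-- the group generated by the involutions -/
def EE : Subgroup (RR U)ˣ where
  carrier := Set.range (pr (yy U hU))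
  mul_mem' := by
    rintro _ _ ⟨u, rfl⟩ ⟨v, rfl⟩
    exact ⟨u ++ v, pr_append _ _ _⟩
  one_mem' := ⟨[], rfl⟩
  inv_mem' := by
    rintro _ ⟨u, rfl⟩
    exact ⟨u.reverse, (pr_yy_inv U hU u).symm⟩

omit [CharP F 2] in
lemma filR (ν : ∀ k, (U k).Q → ℕ) : FilR (fun r (a : RR U) => ∀ k, Fil (ν k) r (a k)) where
  mul h1 h2 k := (h1 k).mul (h2 k)
  add h1 h2 k := (h1 k).add (h2 k)
  neg h1 k := (h1 k).neg
  mono h1 h k := (h1 k).mono h
  one k := Fil.one _
  zero r k := Fil.zero _ r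

lemma engel_EE (hT : ∀ T : Fin 8 → List L, ∃ N, ∀ k, ∃ ν : (U k).Q → ℕ, (∀ p, ν p < N) ∧
    ∀ i, Fil ν 1 ((U k).gev (T i) - 1)) : Engel (Wr (EE U hU)) := by
  apply engel_wr_of_filt
  rintro ⟨_, w1, rfl⟩ ⟨_, w2, rfl⟩ ⟨_, w3, rfl⟩ ⟨_, w4, rfl⟩
  obtain ⟨N, hN⟩ := hT ![w1, w2, w3, w4, w1.reverse, w2.reverse, w3.reverse, w4.reverse]
  choose ν h1 h2 using hN
  have hI := filR U ν
  have key : ∀ w : List L, (∀ k, Fil (ν k) 1 ((U k).gev w - 1)) →
      (∀ k, Fil (ν k) 1 ((U k).gev w.reverse - 1)) → pr (yy U hU) w ∈ hI.sub 1 := by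
    intro w h3 h4
    refine ⟨fun k => ?_, fun k => ?_⟩
    · have := h3 k
      rw [← pr_yy_val U hU] at this
      exact this
    · have := h4 k
      rw [← pr_yy_val U hU, ← pr_yy_inv] at this
      exact this
  refine ⟨N, fun r => (hI.sub r).comap (EE U hU).subtype,
    key w1 (fun k => h2 k 0) (fun k => h2 k 4), key w2 (fun k => h2 k 1) (fun k => h2 k 5),
    key w3 (fun k => h2 k 2) (fun k => h2 k 6), key w4 (fun k => h2 k 3) (fun k => h2 k 7),
    ?_, ?_, ?_, ?_⟩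
  · intro g hg
    apply Subtype.ext
    apply Units.ext
    funext k
    exact sub_eq_zero.1 ((hg.1 k).eq_zero (h1 k))
  · intro r g hg
    exact ⟨hI.mono hg.1 (by omega), hI.mono hg.2 (by omega)⟩
  · intro r g hg y hy
    exact hI.comm_mem hg hy
  · intro r g hg
    exact hI.sq_mem (RR_two U) hg

lemma not_conv (hl : ∀ k, k ≤ (U k).l) : ¬ Conv (EE U hU) 256 := by
  intro h
  let x : ℤ → EE U hU := fun i => ⟨yy U hU ((-i : ℤ) : L), [((-i : ℤ) : L)], by simp⟩
  obtain ⟨k, hk⟩ := h 1 x (fun i => by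
    have h1 : ((-(i + (256 : ℕ)) : ℤ) : L) = ((-i : ℤ) : L) := by
      have h2 : ((256 : ℕ) : L) = 0 := by decide
      push_cast at h2 ⊢
      rw [h2, add_zero]
    simp only [x, h1, inv_one, one_mul, mul_one])
  have key : ∀ k i, ((Dl^[k] x i)⁻¹).val = pr (yy U hU) (V k i) := by
    intro k
    induction k with
    | zero => intro i; rw [V_zero]; simp [x, yy_inv]
    | succ k ih =>
      intro i
      rw [Function.iterate_succ_apply', V_succ, pr_append, ← pr_yy_inv, ← ih, ← ih]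
      simp [Dl]
  have h1 := key k (-k)
  rw [hk, V_neg] at h1
  have h2 := pr_yy_val U hU (seg (fun t => ((g t : ℕ) : L)) (2 ^ k)) (2 ^ k + 1)
  rw [← h1] at h2
  exact (hU (2 ^ k + 1)).gev_ne_one tgt_g (by positivity) (hl _) h2.symm

theorem not_hyp : ¬ Hyp := by
  intro hyp
  obtain ⟨U, hU, hl, hT⟩ := exists_family (AlgebraicClosure (ZMod 2))
  exact not_conv U hU hl (conv_pow hyp 7 _ (engel_EE U hU hT))

end Pool.Agent.Lib.MP_a45045_al
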