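import Pool.Agent.Lib.MP_a45045_al.Sys

namespace Pool.Agent.Lib.MP_a45045_al

open Matrix Polynomial

variable {F : Type} [Field F]

/-- coefficient of a polynomial in two variables -/
noncomputable def co (f : F[X][X]) (α β : ℕ) : F := (f.coeff β).coeff α

lemma co_add (f f' : F[X][X]) (α β : ℕ) : co (f + f') α β = co f α β + co f' α β := by simp [co]

lemma co_sum {ι : Type} (s : Finset ι) (f : ι → F[X][X]) (α β : ℕ) :
    co (∑ r ∈ s, f r) α β = ∑ r ∈ s, co (f r) α β := by simp [co]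

lemma co_C_mul (a : F) (f : F[X][X]) (α β : ℕ) : co (C (C a) * f) α β = a * co f α β := by
  simp [co]

lemma co_mono (a b : ℕ) (f : F[X][X]) (α β : ℕ) :
    co (C (X ^ a) * X ^ b * f) α β = if a ≤ α ∧ b ≤ β then co f (α - a) (β - b) else 0 := by
  unfold co
  rw [mul_assoc, coeff_C_mul, coeff_X_pow_mul', coeff_X_pow_mul']
  by_cases h1 : a ≤ α <;> by_cases h2 : b ≤ β <;> simp [h1, h2]

lemma co_s (f : F[X][X]) (α β : ℕ) :
    co (C X * f) α β = if 1 ≤ α then co f (α - 1) β else 0 := by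
  simpa using co_mono 1 0 f α β

lemma co_t (f : F[X][X]) (α β : ℕ) :
    co (X * f) α β = if 1 ≤ β then co f α (β - 1) else 0 := by
  simpa using co_mono 0 1 f α β

lemma co_bound (f : F[X][X]) : ∃ M, ∀ α β, co f α β ≠ 0 → α ≤ M ∧ β ≤ M := by
  refine ⟨f.natDegree + ∑ β ∈ f.support, (f.coeff β).natDegree, fun α β h => ?_⟩
  have h1 : f.coeff β ≠ 0 := by intro h2; apply h; simp [co, h2]
  have h2 := le_natDegree_of_ne_zero h1
  have h3 := le_natDegree_of_ne_zero h
  have h4 : (f.coeff β).natDegree ≤ ∑ β ∈ f.support, (f.coeff β).natDegree :=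
    Finset.single_le_sum (f := fun β => (f.coeff β).natDegree) (fun _ _ => Nat.zero_le _)
      (mem_support_iff.2 h1)
  omega

lemma co_ne {f : F[X][X]} (h : f ≠ 0) : ∃ α β, co f α β ≠ 0 := by
  by_contra hc
  push Not at hc
  apply h
  ext β α
  exact hc α β

section phi
variable {S : Type} [Fintype S] [DecidableEq S]

/-- generic chain -/
noncomputable def gen (s : F[X][X]) (B K : Matrix S S F) : Matrix S S F[X][X] :=
  fun p q => C (C (B p q)) + C (C (K p q)) * s

/-- specialisation to finite chains -/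
noncomputable def phi (m : ℕ) (M : Matrix S S F[X][X]) : Matrix (Fin m × S) (Fin m × S) F :=
  fun a b => co (M a.2 b.2) (m - 1 - a.1.val) b.1.val

omit [Fintype S] [DecidableEq S] in
lemma phi_add (m : ℕ) (M N : Matrix S S F[X][X]) : phi m (M + N) = phi m M + phi m N := by
  ext a b; simp [phi, co_add]

omit [Fintype S] [DecidableEq S] in
lemma phi_zero (m : ℕ) : phi m (0 : Matrix S S F[X][X]) = 0 := by
  ext a b; simp [phi, co]

omit [DecidableEq S] in
lemma phi_left (m : ℕ) (B K : Matrix S S F) (M : Matrix S S F[X][X]) :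
    phi m (gen (C X) B K * M) = strand m B K * phi m M := by
  ext ⟨c, p⟩ ⟨c', q⟩
  rw [strand_mul]
  simp only [phi, mul_apply, gen, add_mul, Finset.sum_add_distrib, co_add, co_sum, mul_assoc,
    co_C_mul, co_s]
  congr 1
  by_cases h : c.val + 1 < m
  · rw [Finset.sum_eq_single (⟨c.val + 1, h⟩ : Fin m)]
    · have h1 : 1 ≤ m - 1 - c.val := by omega
      simp only [h1, if_true]
      rfl
    · intro b _ hb
      rw [if_neg]
      intro h2; exact hb (Fin.ext h2.symm)
    · simp
  · have h1 : ¬ 1 ≤ m - 1 - c.val := by omega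
    simp only [h1, if_false, mul_zero, Finset.sum_const_zero]
    symm
    apply Finset.sum_eq_zero
    intro b _
    rw [if_neg]
    have := b.2; omega

omit [DecidableEq S] in
lemma phi_right (m : ℕ) (B K : Matrix S S F) (M : Matrix S S F[X][X]) :
    phi m (M * gen X B K) = phi m M * strand m B K := by
  ext ⟨c, p⟩ ⟨c', q⟩
  rw [mul_strand]
  simp only [phi, mul_apply, gen, mul_comm (M _ _), add_mul, Finset.sum_add_distrib, co_add,
    co_sum, mul_assoc, co_C_mul, co_t]
  congr 1
  · simp only [mul_comm]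
  by_cases h : 1 ≤ c'.val
  · rw [Finset.sum_eq_single (⟨c'.val - 1, by omega⟩ : Fin m)]
    · have h1 : c'.val - 1 + 1 = c'.val := by omega
      simp only [h, h1, if_true, mul_comm]
    · intro b _ hb
      rw [if_neg]
      intro h2; exact hb (Fin.ext (by simp only; omega))
    · simp
  · simp only [h, if_false, mul_zero, Finset.sum_const_zero]
    symm
    apply Finset.sum_eq_zero
    intro b _
    rw [if_neg]
    omega

lemma phi_pr (m : ℕ) (B K : L → Matrix S S F) (u : List L) : ∀ M : Matrix S S F[X][X],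
    phi m (M * pr (fun j => gen X (B j) (K j)) u) =
      phi m M * pr (fun j => strand m (B j) (K j)) u := by
  induction u with
  | nil => intro M; simp
  | cons j u ih => intro M; rw [pr_cons, pr_cons, ← mul_assoc, ih, phi_right, mul_assoc]

lemma phi_dl (m : ℕ) (B K : L → Matrix S S F) (Z : L → Matrix S S F[X][X]) (u : List L) :
    phi m (dl (fun j => gen (C X) (B j) (K j)) (fun j => gen X (B j) (K j)) Z u) =
      dl (fun j => strand m (B j) (K j)) (fun j => strand m (B j) (K j))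
        (fun j => phi m (Z j)) u := by
  induction u with
  | nil => exact phi_zero m
  | cons j u ih => rw [dl_cons, dl_cons, phi_add, phi_left, phi_pr, ih]

end phi

lemma card_even : (Finset.univ.filter (fun j : L => j.val % 2 = 0 ∧ j ≠ 0)).card = 127 := by
  decide +kernel

lemma exists_ker {A : Type} [CommRing A] [Nontrivial A] {S : Type} [Fintype S] [DecidableEq S]
    (Φ0 Φ1 : Finset S) (h0 : Fintype.card S < 3 * Φ0.card) (h1 : Fintype.card S < 3 * Φ1.card)
    (BL BR : L → Matrix S S A) (T : Fin 8 → List L) :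
    ∃ Z : L → Matrix S S A, Z ≠ 0 ∧
      (∀ j a b, Z j a b ≠ 0 → (j.val % 2 = 0 ∧ j ≠ 0) ∧ a ∈ Φ0 ∧ b ∈ Φ1) ∧
      ∀ k, dl BL BR Z (T k) = 0 := by
  let P : L × S × S → Prop := fun x => (x.1.val % 2 = 0 ∧ x.1 ≠ 0) ∧ x.2.1 ∈ Φ0 ∧ x.2.2 ∈ Φ1
  let e : ({x // P x} → A) →ₗ[A] (L → Matrix S S A) :=
    { toFun := fun w j => Matrix.of fun a b => if h : P (j, a, b) then w ⟨(j, a, b), h⟩ else 0
      map_add' := by
        intro w w'; funext j; ext a b
        by_cases h : P (j, a, b) <;> simp [h]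
      map_smul' := by
        intro c w; funext j; ext a b
        by_cases h : P (j, a, b) <;> simp [h] }
  let Ψ : ({x // P x} → A) →ₗ[A] (Fin 8 → Matrix S S A) :=
    (LinearMap.pi (fun k => dlL BL BR A (T k))).comp e
  have hc : Fintype.card {x // P x} = 127 * (Φ0.card * Φ1.card) := by
    rw [Fintype.card_subtype, ← card_even, ← Finset.card_product, ← Finset.card_product]
    congr 1
    ext ⟨j, a, b⟩
    simp [P]
  have hni : ¬ Function.Injective Ψ := by
    intro hi
    have h2 := LinearMap.finrank_le_finrank_of_injective hi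
    rw [Module.finrank_fintype_fun_eq_card, hc, Module.finrank_pi_fintype] at h2
    simp only [Module.finrank_matrix, Module.finrank_self, mul_one, Finset.sum_const,
      Finset.card_univ, Fintype.card_fin, smul_eq_mul] at h2
    have h3 : Fintype.card S * Fintype.card S < (3 * Φ0.card) * (3 * Φ1.card) :=
      Nat.mul_lt_mul'' h0 h1
    nlinarith
  rw [injective_iff_map_eq_zero] at hni
  push Not at hni
  obtain ⟨w, hw1, hw2⟩ := hni
  refine ⟨e w, ?_, ?_, fun k => congrFun hw1 k⟩
  · intro h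
    apply hw2
    funext ⟨⟨j, a, b⟩, hx⟩
    have := congrFun (congrFun (congrFun h j) a) b
    simpa [e, hx] using this
  · intro j a b h
    by_contra hc
    exact h (dif_neg hc)

theorem Good.phaseA {U : Sys F} (hU : Good U) (T : Fin 8 → List L) :
    ∃ (M : ℕ) (z : L → U.Q → U.Q → ℤ → ℤ → F),
      (∀ j a b c c', z j a b c c' ≠ 0 → (j.val % 2 = 0 ∧ j ≠ 0) ∧ a ∈ U.Φ0 ∧ b ∈ U.Φ1 ∧
        0 ≤ c ∧ c ≤ M ∧ 0 ≤ c' ∧ c' ≤ M) ∧
      (∃ j a b c c', z j a b c c' ≠ 0) ∧
      ∀ m σ τ : ℕ, σ + M < m → ∀ k, dl (fun j => 1 + U.Y m j) (fun j => 1 + U.Y m j)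
        (fun j a b => z j a.2 b.2 (a.1.val - σ) (b.1.val - τ)) (T k) = 0 := by
  obtain ⟨Z, hZ0, hZ1, hZ2⟩ := exists_ker U.Φ0 U.Φ1 hU.card0 hU.card1
    (fun j => gen (C X) (1 + U.X j) (U.link j)) (fun j => gen X (1 + U.X j) (U.link j)) T
  choose bd hbd using fun x : L × U.Q × U.Q => co_bound (Z x.1 x.2.1 x.2.2)
  obtain ⟨M, hM⟩ := Finite.exists_le bd
  have hb : ∀ j a b α β, co (Z j a b) α β ≠ 0 → α ≤ M ∧ β ≤ M := by
    intro j a b α β h
    have := hbd (j, a, b) α β h
    have := hM (j, a, b)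
    omega
  refine ⟨M, fun j a b c c' => if 0 ≤ c ∧ c ≤ M ∧ 0 ≤ c' then
    co (Z j a b) (M - c.toNat) c'.toNat else 0, ?_, ?_, ?_⟩
  · intro j a b c c' h
    have h1 : 0 ≤ c ∧ c ≤ M ∧ 0 ≤ c' := by
      by_contra hc; exact h (if_neg hc)
    simp only [h1, and_self, if_true] at h
    have h2 := hb _ _ _ _ _ h
    have h3 : Z j a b ≠ 0 := by intro h4; apply h; simp [h4, co]
    have h4 := hZ1 _ _ _ h3
    exact ⟨h4.1, h4.2.1, h4.2.2, h1.1, h1.2.1, h1.2.2, by omega⟩
  · obtain ⟨j, a, b, h⟩ : ∃ j a b, Z j a b ≠ 0 := by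
      by_contra hc
      push Not at hc
      apply hZ0
      funext j a b; exact hc j a b
    obtain ⟨α, β, h1⟩ := co_ne h
    have h2 := hb _ _ _ _ _ h1
    refine ⟨j, a, b, (M - α : ℕ), β, ?_⟩
    have h3 : M - (M - α) = α := by omega
    simp only [Int.toNat_natCast, h3]
    rw [if_pos (by omega)]
    exact h1
  · intro m σ τ hm k
    have h1 : (fun j => 1 + U.Y m j) = fun j => strand m (1 + U.X j) (U.link j) := by
      funext j; exact one_add_strand _ _ _
    have h2 := phi_dl m (fun j => 1 + U.X j) U.link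
      ((C (X ^ (m - 1 - M - σ)) * X ^ τ : F[X][X]) • Z) (T k)
    have h3 := dl_smul (fun j => gen (C X) (1 + U.X j) (U.link j))
      (fun j => gen X (1 + U.X j) (U.link j)) (C (X ^ (m - 1 - M - σ)) * X ^ τ : F[X][X]) Z (T k)
    rw [hZ2, smul_zero] at h3
    rw [h3, phi_zero] at h2
    rw [h1, h2]
    congr 1
    funext j a b
    simp only [phi, Pi.smul_apply, Matrix.smul_apply, smul_eq_mul, co_mono]
    have := a.1.2
    split_ifs with h3 h4 h4
    · congr 1 <;> omega
    · omega
    · by_contra hc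
      have := hb _ _ _ _ _ (Ne.symm hc)
      omega
    · rfl

end Pool.Agent.Lib.MP_a45045_al
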