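import Pool.Agent.Lib.MP_a45045_al.PhaseA
import Pool.Agent.Lib.MP_a45045_al.Inv

namespace Pool.Agent.Lib.MP_a45045_al

open Matrix

/-- sum over a single time dependent jump -/
def SS {A : Type} [Ring A] (C : L → A) (ζ : ℤ → L → A) (x : ℕ → L) : ℕ → A
  | 0 => 0
  | n+1 => SS C ζ x n * C (x n) + pr C (seg x n) * ζ n (x n)

section SS
variable {A : Type} [Ring A] (C : L → A)

lemma SS_succ (ζ : ℤ → L → A) (x : ℕ → L) (n : ℕ) :
    SS C ζ x (n+1) = SS C ζ x n * C (x n) + pr C (seg x n) * ζ n (x n) := rfl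

lemma SS_zero (ζ : ℤ → L → A) (x : ℕ → L) (n : ℕ) (h : ∀ t : ℕ, t < n → ζ t = 0) :
    SS C ζ x n = 0 := by
  induction n with
  | zero => rfl
  | succ n ih => rw [SS_succ, ih (fun t ht => h t (by omega)), h n (by omega)]; simp

lemma SS_shift (ζ : ℤ → L → A) (x : ℕ → L) (n0 : ℕ) (h : ∀ t < 0, ζ t = 0) (n : ℕ) :
    SS C (fun t => ζ (t - n0)) x (n0 + n) = pr C (seg x n0) * SS C ζ (shift x n0) n := by
  induction n with
  | zero =>
    rw [add_zero, SS_zero C (fun t => ζ (t - n0)) x n0 (fun t ht => h _ (by omega))]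
    simp [SS]
  | succ n ih =>
    rw [← add_assoc, SS_succ, SS_succ, ih, seg_add, pr_append]
    have : ((n0 + n : ℕ) : ℤ) - n0 = n := by omega
    simp only [this, shift]
    noncomm_ring

lemma SS_tail (ζ : ℤ → L → A) (x : ℕ → L) (n1 : ℕ) (h : ∀ t : ℕ, n1 ≤ t → ζ t = 0) (n : ℕ) :
    SS C ζ x (n1 + n) = SS C ζ x n1 * pr C (seg (shift x n1) n) := by
  induction n with
  | zero => simp
  | succ n ih =>
    rw [← add_assoc, SS_succ, ih, seg_succ, pr_concat, h _ (by omega)]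
    simp [shift, mul_assoc]

lemma SS_congr (ζ : ℤ → L → A) {x y : ℕ → L} (n : ℕ) (h : ∀ t < n, x t = y t) :
    SS C ζ x n = SS C ζ y n := by
  induction n with
  | zero => rfl
  | succ n ih =>
    rw [SS_succ, SS_succ, ih (fun t ht => h t (by omega)), h n (by omega),
      seg_congr (fun t ht => h t (by omega))]

end SS

variable {F : Type} [Field F]

namespace Good

variable {U : Sys F} (hU : Good U)
include hU

lemma dl_G {m : ℕ} (hm : 0 < m) (ρ : ℕ) (W : L → Matrix (Fin m × U.Q) (Fin m × U.Q) F)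
    (ζ : ℤ → L → Matrix U.Q U.Q F)
    (h1 : ∀ j a b, U.lev b + ρ = U.lev a + 1 → W j a b = ζ (U.lev a) j a.2 b.2)
    (h2 : ∀ t : ℕ, t + 1 < ρ ∨ m * U.l ≤ t → ζ t = 0) (x : ℕ → L) (n : ℕ) :
    ∀ b, dl (U.G m) (U.G m) (fun j => U.jt ρ (W j)) (seg x n) (⟨0, hm⟩, U.i) b =
      if U.lev b + ρ = n then SS U.C ζ x n U.i b.2 else 0 := by
  induction n with
  | zero => intro b; simp [SS]
  | succ n ih =>
    intro b
    rw [seg_succ, dl_concat, Matrix.add_apply,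
      hU.mul_G (x n) _ _ (fun r => SS U.C ζ x n U.i r) ρ n ih
        (fun h r => by rw [SS_zero _ _ _ _ (fun t ht => h2 t (Or.inl (by omega)))]; rfl),
      SS_succ, Matrix.add_apply, mul_apply, mul_apply, mul_apply, Fintype.sum_prod_type,
      Finset.sum_comm]
    have h0 : U.lev ((⟨0, hm⟩ : Fin m), U.i) = 0 := by simp [Sys.lev, hU.pi_i]
    simp only [hU.pr_G, h0, add_zero, zero_add, seg_length, Sys.jt]
    split_ifs with h
    · congr 1
      apply Finset.sum_congr rfl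
      intro r _
      by_cases hr : pr U.C (seg x n) U.i r = 0
      · simp [hr]
      have h3 := hU.prC_lev _ _ _ hr
      rw [hU.pi_i, zero_add, seg_length] at h3
      by_cases hn : m * U.l ≤ n
      · rw [h2 n (Or.inr hn)]
        simp only [Pi.zero_apply, Matrix.zero_apply, mul_zero]
        apply Finset.sum_eq_zero
        intro c _
        have := hU.lev_lt (c, r)
        rw [if_neg (by omega), zero_mul]
      · have h4 : n / U.l < m := by
          rw [Nat.div_lt_iff_lt_mul hU.l_pos]; omega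
        have h5 : U.lev ((⟨n / U.l, h4⟩ : Fin m), r) = n := by
          simp only [Sys.lev, h3]
          exact Nat.div_add_mod' n U.l
        rw [Finset.sum_eq_single (⟨n / U.l, h4⟩ : Fin m)]
        · rw [if_pos h5, if_pos (by omega), h1 _ _ _ (by omega), h5]
        · intro c _ hc
          rw [if_neg, zero_mul]
          intro h6
          exact hc (hU.lev_inj (h6.trans h5.symm)).1
        · simp
    · rw [zero_add]
      apply Finset.sum_eq_zero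
      intro r _
      apply Finset.sum_eq_zero
      intro c _
      split_ifs with h3 h4
      · omega
      all_goals simp

lemma C_fs {b : U.Q} (hb : b ∈ U.Φ1) {j j' : L} (a : U.Q)
    (hj : j.val % 2 = 0) (hj' : j'.val % 2 = 0) : U.C j a b = U.C j' a b := by
  simp [Sys.C, top, Sys.link, hj, hj', hU.fs _ hb j j' a hj hj']

lemma exists_x0 (ζ : ℤ → L → Matrix U.Q U.Q F) (p : ℕ) (hp : p % 2 = 0) {a b : U.Q}
    (ha : U.Uniq a) (hpa : U.π a = p % U.l) (hb : b ∈ U.Φ1) {j : L} (hj : j.val % 2 = 0)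
    (hz : ζ p j a b ≠ ζ p 0 a b) : ∃ x0, Tgt x0 ∧ SS U.C ζ x0 (p + 1) U.i b ≠ 0 := by
  obtain ⟨x, x', hx, hx', h1, h2⟩ := special_pair p hp (fun j => ζ p j a b) j hj hz
  by_contra hc
  push Not at hc
  have key : ∀ y, SS U.C ζ y (p + 1) U.i b = (∑ r, SS U.C ζ y p U.i r * U.C (y p) r b) +
      pr U.C (seg y p) U.i a * ζ p (y p) a b := by
    intro y
    rw [SS_succ, Matrix.add_apply, mul_apply, mul_cut a]
    intro r h3 _
    apply ha
    rw [hU.prC_lev _ _ _ h3, hU.pi_i, hpa]; simp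
  have h3 := hc x hx
  have h4 := hc x' hx'
  rw [key] at h3 h4
  rw [SS_congr _ _ _ h1, seg_congr h1] at h3
  simp only [hU.C_fs hb _ ((hx.parity p).trans hp) ((hx'.parity p).trans hp)] at h3
  apply h2
  exact mul_left_cancel₀ (hU.left_ne hx' p ha hpa) (add_left_cancel (h3.trans h4.symm))

lemma pass_shift (ζ : ℤ → L → Matrix U.Q U.Q F) (p : ℕ) (hζ : ∀ t, ζ t ≠ 0 → 0 ≤ t ∧ t ≤ p)
    {x x0 : ℕ → L} (hx : Tgt x) (σ : ℕ) (hx0 : ∀ t < p + 1, x (σ * U.l + t) = x0 t)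
    {b : U.Q} (hb : U.Uniq b) (hS : SS U.C ζ x0 (p + 1) U.i b ≠ 0) (ρ n k : ℕ) (hρ : ρ % 2 = 0)
    (hn : σ * U.l + (p + 1) = ρ + n) (hbn : U.π b = n % U.l) (hk : U.π U.o = (n + k) % U.l) :
    SS U.C (fun t => ζ (t - (σ * U.l : ℕ))) x (σ * U.l + (p + 1 + k)) U.i U.o ≠ 0 := by
  rw [SS_shift _ _ _ _ (fun t ht => by by_contra hc; have := hζ t hc; omega),
    SS_tail _ _ _ _ (fun t ht => by by_contra hc; have := hζ t hc; omega),
    mul_cut U.i, mul_cut b, SS_congr _ _ _ (show ∀ t < p + 1, shift x (σ * U.l) t = x0 t from hx0),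
    shift_shift, hn, ← shift_shift]
  · exact mul_ne_zero (hU.cyc_pass σ hx) (mul_ne_zero hS (hU.right_ne (hx.shift hρ) n k hb hbn hk))
  · intro r _ h1
    apply hb
    have h2 := hU.prC_lev _ _ _ h1
    rw [seg_length, hk] at h2
    have h3 : n ≡ U.π r [MOD U.l] := Nat.ModEq.add_right_cancel' k h2
    rw [hbn, h3, Nat.mod_eq_of_lt (hU.pi_lt r)]
  · intro r h1 _
    apply hU.uniq_i
    rw [hU.prC_lev _ _ _ h1, hU.pi_i]; simp

lemma leading (M : ℕ) (z : L → U.Q → U.Q → ℤ → ℤ → F)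
    (hz : ∀ j a b c c', z j a b c c' ≠ 0 → (j.val % 2 = 0 ∧ j ≠ 0) ∧ a ∈ U.Φ0 ∧ b ∈ U.Φ1 ∧
        0 ≤ c ∧ c ≤ M ∧ 0 ≤ c' ∧ c' ≤ M)
    (hne : ∃ j a b c c', z j a b c c' ≠ 0) :
    ∃ (ρ0 : ℤ) (p : ℕ) (ζ : ℤ → L → Matrix U.Q U.Q F) (x0 : ℕ → L) (b0 : U.Q) (c0 : ℕ),
      (∀ j a b c c', z j a b c c' ≠ 0 → c' * U.l + U.π b + ρ0 ≤ c * U.l + U.π a + 1) ∧
      (∀ j a b c c', c' * U.l + U.π b + ρ0 = c * U.l + U.π a + 1 →
        z j a b c c' = ζ (c * U.l + U.π a) j a b) ∧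
      (∀ t, ζ t ≠ 0 → 0 ≤ t ∧ t ≤ p ∧ ρ0 ≤ t + 1) ∧
      Tgt x0 ∧ SS U.C ζ x0 (p + 1) U.i b0 ≠ 0 ∧ b0 ∈ U.Φ1 ∧ c0 ≤ M ∧
      (c0 : ℤ) * U.l + U.π b0 + ρ0 = p + 1 ∧ p < (M + 1) * U.l ∧ p % 2 = 0 := by
  classical
  have hl := hU.l_pos
  let S : Set (L × U.Q × U.Q × ℤ × ℤ) := {x | z x.1 x.2.1 x.2.2.1 x.2.2.2.1 x.2.2.2.2 ≠ 0}
  have hS : S.Finite := by
    apply Set.Finite.subset (s := Set.univ ×ˢ Set.univ ×ˢ Set.univ ×ˢ
      (Set.Icc (0 : ℤ) M) ×ˢ (Set.Icc (0 : ℤ) M))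
    · exact Set.finite_univ.prod (Set.finite_univ.prod (Set.finite_univ.prod
        ((Set.finite_Icc _ _).prod (Set.finite_Icc _ _))))
    · intro x hx
      have := hz _ _ _ _ _ hx
      simp only [Set.mem_prod, Set.mem_univ, Set.mem_Icc, true_and]
      tauto
  let D : L × U.Q × U.Q × ℤ × ℤ → ℤ := fun x =>
    x.2.2.2.2 * U.l + U.π x.2.2.1 - (x.2.2.2.1 * U.l + U.π x.2.1)
  let P : L × U.Q × U.Q × ℤ × ℤ → ℤ := fun x => x.2.2.2.1 * U.l + U.π x.2.1
  obtain ⟨x1, hx1, hD⟩ := Set.exists_max_image S D hS (by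
    obtain ⟨j, a, b, c, c', h⟩ := hne
    exact ⟨(j, a, b, c, c'), h⟩)
  obtain ⟨⟨j0, a0, b0, c1, c2⟩, ⟨hx2, hx3⟩, hP⟩ := Set.exists_max_image {x ∈ S | D x = D x1} P
    (hS.subset (Set.sep_subset _ _)) ⟨x1, hx1, rfl⟩
  replace hx2 : z j0 a0 b0 c1 c2 ≠ 0 := hx2
  obtain ⟨⟨hj0, -⟩, ha0, hb0, h1, h2, h3, h4⟩ := hz _ _ _ _ _ hx2
  obtain ⟨c1, rfl⟩ := Int.eq_ofNat_of_zero_le h1
  obtain ⟨c2, rfl⟩ := Int.eq_ofNat_of_zero_le h3
  let ζ : ℤ → L → Matrix U.Q U.Q F := fun t j => Matrix.of fun a b =>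
    if h : ∃ w : ℤ × ℤ, w.1 * U.l + U.π a = t ∧ w.2 * U.l + U.π b + (1 - D x1) = t + 1 then
      z j a b h.choose.1 h.choose.2 else 0
  have hζ1 : ∀ j a b c c', c' * U.l + U.π b + (1 - D x1) = c * U.l + U.π a + 1 →
      z j a b c c' = ζ (c * U.l + U.π a) j a b := by
    intro j a b c c' h
    have h5 : ∃ w : ℤ × ℤ, w.1 * U.l + U.π a = c * U.l + U.π a ∧
        w.2 * U.l + U.π b + (1 - D x1) = c * U.l + U.π a + 1 := ⟨(c, c'), rfl, h⟩
    have h6 := h5.choose_spec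
    have h7 : (U.l : ℤ) ≠ 0 := by omega
    have h8 : h5.choose.1 = c := mul_right_cancel₀ h7 (by linarith [h6.1])
    have h9 : h5.choose.2 = c' := mul_right_cancel₀ h7 (by linarith [h6.2])
    simp only [ζ, Matrix.of_apply]
    rw [dif_pos h5, h8, h9]
  have hζ2 : ∀ t j a b, ζ t j a b ≠ 0 → ∃ c c' : ℤ, c * U.l + U.π a = t ∧
      c' * U.l + U.π b + (1 - D x1) = t + 1 ∧ z j a b c c' ≠ 0 := by
    intro t j a b h
    simp only [ζ, Matrix.of_apply] at h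
    split_ifs at h with h5
    · exact ⟨_, _, h5.choose_spec.1, h5.choose_spec.2, h⟩
    · exact absurd rfl h
  have hp : (c1 * U.l + U.π a0) % 2 = 0 := by
    have := hU.lev_mod ((⟨c1, Nat.lt_succ_self _⟩ : Fin (c1 + 1)), a0)
    have h5 := hU.par0 _ ha0
    simp only [Sys.lev] at this
    omega
  have hx3' : (c2 : ℤ) * U.l + U.π b0 + (1 - D x1) = c1 * U.l + U.π a0 + 1 := by
    simp only [D] at hx3 ⊢
    linarith
  obtain ⟨x0, hx0, hS0⟩ := hU.exists_x0 ζ (c1 * U.l + U.π a0) hp (hU.uniq0 _ ha0)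
    (by rw [Nat.mul_add_mod_self_right, Nat.mod_eq_of_lt (hU.pi_lt _)]) hb0 hj0 (by
      push_cast
      rw [← hζ1 j0 a0 b0 c1 c2 hx3', ← hζ1 0 a0 b0 c1 c2 hx3']
      have : z 0 a0 b0 c1 c2 = 0 := by
        by_contra hc
        exact (hz _ _ _ _ _ hc).1.2 rfl
      rw [this]; exact hx2)
  refine ⟨1 - D x1, c1 * U.l + U.π a0, ζ, x0, b0, c2, ?_, hζ1, ?_, hx0, hS0, hb0, by omega,
    by push_cast; exact hx3', ?_, hp⟩
  · intro j a b c c' h
    have := hD (j, a, b, c, c') h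
    simp only [D] at this ⊢
    linarith
  · intro t ht
    obtain ⟨j, a, b, h⟩ : ∃ j a b, ζ t j a b ≠ 0 := by
      by_contra hc
      push Not at hc
      apply ht
      funext j; ext a b; exact hc j a b
    obtain ⟨c, c', h5, h6, h7⟩ := hζ2 t j a b h
    obtain ⟨-, -, -, h8, -, h9, -⟩ := hz _ _ _ _ _ h7
    have h10 := hP (j, a, b, c, c') ⟨h7, by simp only [D] at h6 ⊢; linarith⟩
    simp only [P] at h10
    have h11 : 0 ≤ c * U.l := by positivity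
    have h12 : 0 ≤ c' * U.l := by positivity
    refine ⟨by omega, by push_cast; linarith, by omega⟩
  · exact lev_aux (q := 0) (hU.pi_lt _) (by omega)

end Good

end Pool.Agent.Lib.MP_a45045_al
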