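import Pool.Agent.Lib.MP_a45045_al.PhaseB

namespace Pool.Agent.Lib.MP_a45045_al

open Matrix

variable {F : Type} [Field F]

/-- the weight with which a word passes, as a linear functional of the jumps -/
def Sys.passL (U : Sys F) (m ρ : ℕ) (u : List L) (a b : Fin m × U.Q) :
    Module.Dual F (L → Matrix (Fin m × U.Q) (Fin m × U.Q) F) where
  toFun W := dl (U.G m) (U.G m) (fun j => U.jt ρ (W j)) u a b
  map_add' W W' := by
    have : (fun j => U.jt ρ ((W + W') j)) = (fun j => U.jt ρ (W j)) + fun j => U.jt ρ (W' j) := by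
      funext j; ext a b
      simp only [Sys.jt, Pi.add_apply, Matrix.add_apply]
      split_ifs <;> simp
    rw [this, dl_add]; rfl
  map_smul' c W := by
    have : (fun j => U.jt ρ ((c • W) j)) = c • (fun j => U.jt ρ (W j)) := by
      funext j; ext a b
      simp only [Sys.jt, Pi.smul_apply, Matrix.smul_apply]
      split_ifs <;> simp
    rw [this, dl_smul]; rfl

/-- admissible jumps -/
def Sys.adm (U : Sys F) (m : ℕ) (T : Fin 8 → List L)
    (P : L → Fin m × U.Q → Fin m × U.Q → Prop) :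
    Submodule F (L → Matrix (Fin m × U.Q) (Fin m × U.Q) F) where
  carrier := {W | (∀ j a b, W j a b ≠ 0 → P j a b) ∧
    ∀ k, dl (fun j => 1 + U.Y m j) (fun j => 1 + U.Y m j) W (T k) = 0}
  add_mem' := by
    rintro W W' ⟨h1, h2⟩ ⟨h3, h4⟩
    refine ⟨fun j a b h => ?_, fun k => by rw [dl_add, h2, h4, add_zero]⟩
    rcases add_ne (M := W j) (N := W' j) h with h | h
    · exact h1 _ _ _ h
    · exact h3 _ _ _ h
  zero_mem' := ⟨fun j a b h => absurd rfl h, fun k => (dlL _ _ F (T k)).map_zero⟩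
  smul_mem' := by
    rintro c W ⟨h1, h2⟩
    refine ⟨fun j a b h => h1 j a b ?_, fun k => by rw [dl_smul, h2, smul_zero]⟩
    intro h3
    apply h
    simp [h3]

theorem Good.exists_jump [Infinite F] {U : Sys F} (hU : Good U) (T : Fin 8 → List L) (d : ℕ) :
    ∃ (m h ρ : ℕ) (hm : 0 < m) (W : L → Matrix (Fin m × U.Q) (Fin m × U.Q) F),
      Jump U m h ρ W ∧
      (∀ x, Tgt x → dl (U.G m) (U.G m) (fun j => U.jt ρ (W j)) (seg x (m * U.l + ρ - 1))
        (⟨0, hm⟩, U.i) (⟨m - 1, by omega⟩, U.o) ≠ 0) ∧ d ≤ h ∧ 2 ≤ m ∧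
      ∀ k, dl (fun j => 1 + U.Y m j) (fun j => 1 + U.Y m j) W (T k) = 0 := by
  obtain ⟨M, z, hz, hne, hker⟩ := hU.phaseA T
  obtain ⟨ρ0, p, ζ, x0, b0, c0, hD, hζ1, hζ2, hx0, hS, hb0, hc0, hp1, hp2, hp3⟩ :=
    hU.leading M z hz hne
  obtain ⟨B, hB⟩ := recurrence hx0 (p + 1) U.l hU.l_mod
  have hl := hU.l_mod
  have hlp := hU.l_pos
  have hb1 := hU.par1 _ hb0
  have hb2 := hU.pi_lt b0
  have hρ0 : ρ0 % 2 = 0 := by
    have h1 := hU.lev_mod ((⟨c0, Nat.lt_succ_self _⟩ : Fin (c0 + 1)), b0)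
    simp only [Sys.lev] at h1
    have h2 : ((c0 * U.l : ℕ) : ℤ) = c0 * U.l := by push_cast; ring
    omega
  set κ := 2 * M + B + 4 with hκ
  set h := κ * Fintype.card U.Q + d + 1 with hh
  set m := h + κ with hm
  obtain ⟨ε, hε, hε2⟩ : ∃ ε : ℕ, ε ≤ 1 ∧ (((m + (h + M + 2 + ε)) * U.l : ℕ) + ρ0) % 4 = 2 := by
    have h1 : (m + (h + M + 2 + 1)) * U.l = (m + (h + M + 2 + 0)) * U.l + U.l := by ring
    have h2 : ((m + (h + M + 2 + 0)) * U.l) % 2 = 0 := by
      obtain ⟨q, hq⟩ : ∃ q, U.l = 2 * q := ⟨U.l / 2, by omega⟩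
      have : (m + (h + M + 2 + 0)) * U.l = 2 * ((m + (h + M + 2 + 0)) * q) := by rw [hq]; ring
      omega
    by_cases h3 : (((m + (h + M + 2 + 0)) * U.l : ℕ) + ρ0) % 4 = 2
    · exact ⟨0, by omega, h3⟩
    · exact ⟨1, le_rfl, by rw [h1]; omega⟩
  set σ0 := h + M + 2 + ε with hσ0
  have hc1 : (c0 : ℤ) * U.l ≤ M * U.l := by
    have := lev_aux2 (l := U.l) hc0
    exact_mod_cast this
  have hρge : (h : ℤ) * U.l ≤ ρ0 + σ0 * U.l := by
    have h1 : (σ0 : ℤ) * U.l = h * U.l + M * U.l + 2 * U.l + ε * U.l := by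
      rw [hσ0]; push_cast; ring
    have h2 : 0 ≤ (ε : ℤ) * U.l := by positivity
    omega
  obtain ⟨ρ, hρ⟩ : ∃ ρ : ℕ, (ρ : ℤ) = ρ0 + σ0 * U.l :=
    ⟨(ρ0 + σ0 * U.l).toNat, Int.toNat_of_nonneg (le_trans (by positivity) hρge)⟩
  have hρe : ρ % 2 = 0 := by
    obtain ⟨q, hq⟩ : ∃ q, U.l = 2 * q := ⟨U.l / 2, by omega⟩
    have : (σ0 : ℤ) * U.l = 2 * (σ0 * q) := by rw [hq]; push_cast; ring
    omega
  have hm0 : 0 < m := by omega
  let P : L → Fin m × U.Q → Fin m × U.Q → Prop := fun j a b =>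
    j.val % 2 = 0 ∧ a.2 ∈ U.Φ0 ∧ b.2 ∈ U.Φ1 ∧ h + 2 ≤ a.1.val ∧
      b.1.val + h + 3 ≤ m ∧ U.lev b + ρ ≤ U.lev a + 1
  let ι := {u : List L // u.length = m * U.l + ρ - 1 ∧ ∃ x, Tgt x ∧ u = seg x (m * U.l + ρ - 1)}
  have : Finite ι := ((List.finite_length_eq L (m * U.l + ρ - 1)).subset
    (fun u (hu : u.length = _ ∧ ∃ x, Tgt x ∧ u = seg x (m * U.l + ρ - 1)) => hu.1)).to_subtype
  obtain ⟨W, ⟨hW1, hW2⟩, hW3⟩ := Module.Dual.exists_forall_mem_ne_zero_of_forall_exists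
    (U.adm m T P) (fun u : ι => U.passL m ρ u.1 (⟨0, hm0⟩, U.i) (⟨m - 1, by omega⟩, U.o)) (by
      rintro ⟨u, hu, x, hx, rfl⟩
      have hσe : (σ0 * U.l) % 2 = 0 := by
        obtain ⟨q, hq⟩ : ∃ q, U.l = 2 * q := ⟨U.l / 2, by omega⟩
        have : σ0 * U.l = 2 * (σ0 * q) := by rw [hq]; ring
        omega
      obtain ⟨τ, hτ, hτx⟩ := hB _ (hx.shift hσe)
      refine ⟨fun j a b => z j a.2 b.2 (a.1.val - (σ0 + τ : ℕ)) (b.1.val - τ),
        ⟨?_, hker m (σ0 + τ) τ (by omega)⟩, ?_⟩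
      · intro j a b hj
        obtain ⟨⟨h1, -⟩, h2, h3, h4, h5, h6, h7⟩ := hz _ _ _ _ _ hj
        have h8 := hD _ _ _ _ _ hj
        refine ⟨h1, h2, h3, by omega, by omega, ?_⟩
        unfold Sys.lev
        zify
        push_cast at h8
        nlinarith
      · simp only [Sys.passL, LinearMap.coe_mk, AddHom.coe_mk]
        have hlast : U.lev ((⟨m - 1, by omega⟩ : Fin m), U.o) + 1 = m * U.l := by
          have h1 := hU.pi_o
          have h2 : m * U.l = (m - 1) * U.l + U.l := by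
            rw [← add_one_mul]; congr 1
          simp only [Sys.lev]; omega
        rw [hU.dl_G hm0 ρ _ (fun t => ζ (t - ((σ0 + τ) * U.l : ℕ))), if_pos (by omega)]
        · have h1 : (τ + c0 + 1) * U.l ≤ m * U.l := lev_aux2 (by omega)
          have h2 : (σ0 + τ) * U.l + (p + 1) = ρ + ((τ + c0) * U.l + U.π b0) := by
            zify; linarith
          have h3 : (τ + c0 + 1) * U.l = (τ + c0) * U.l + U.l := by ring
          obtain ⟨k, hk⟩ : ∃ k, m * U.l = (τ + c0) * U.l + U.π b0 + k + 1 :=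
            ⟨m * U.l - ((τ + c0) * U.l + U.π b0 + 1), by omega⟩
          have h4 : m * U.l + ρ - 1 = (σ0 + τ) * U.l + (p + 1 + k) := by omega
          change SS U.C _ x (m * U.l + ρ - 1) U.i U.o ≠ 0
          rw [h4]
          refine hU.pass_shift ζ p (fun t ht => ⟨(hζ2 t ht).1, (hζ2 t ht).2.1⟩) hx (σ0 + τ)
            (fun t ht => ?_) (hU.uniq1 _ hb0) hS ρ _ k hρe h2 ?_ ?_
          · rw [← hτx t ht, shift]; congr 1; ring
          · rw [Nat.mul_add_mod_self_right, Nat.mod_eq_of_lt hb2]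
          · have h5 : (τ + c0) * U.l + U.π b0 + k = (m - 1) * U.l + U.π U.o := by
              simp only [Sys.lev] at hlast; omega
            rw [h5, Nat.mul_add_mod_self_right, Nat.mod_eq_of_lt (hU.pi_lt _)]
        · intro j a b hab
          unfold Sys.lev at hab ⊢
          rw [hζ1]
          · congr 1; push_cast; ring
          · zify at hab; push_cast; linarith
        · intro t ht
          by_contra hc
          obtain ⟨h1, h2, h3⟩ := hζ2 _ hc
          have h4 : (σ0 + τ + (M + 1)) * U.l ≤ m * U.l := lev_aux2 (by omega)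
          have h5 : (σ0 + τ + (M + 1)) * U.l = (σ0 + τ) * U.l + (M + 1) * U.l := by ring
          have h6 : (((σ0 + τ) * U.l : ℕ) : ℤ) = σ0 * U.l + (τ * U.l : ℕ) := by push_cast; ring
          omega)
  refine ⟨m, h, ρ, hm0, W, ⟨hW1, hρe, by exact_mod_cast hρ ▸ hρge, ?_, by omega, by omega, ?_⟩,
    fun x hx => hW3 ⟨_, seg_length _ _, x, hx, rfl⟩, by omega, by omega, hW2⟩
  · have h1 : (((m + σ0) * U.l : ℕ) : ℤ) = (m * U.l : ℕ) + σ0 * U.l := by push_cast; ring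
    omega
  · have : m - h = κ := by omega
    rw [this]; omega

theorem Good.step [Infinite F] {U : Sys F} (hU : Good U) (T : Fin 8 → List L) (d : ℕ) :
    ∃ U' : Sys F, Good U' ∧ U.l < U'.l ∧ (∃ N, Inv U' T d N) ∧
      ∀ T' d' N', (∀ k, (T' k).length ≤ d') → Inv U T' d' N' → Inv U' T' d' N' := by
  obtain ⟨m, h, ρ, hm, W, hJ, hP, hd, hm2, hT⟩ := hU.exists_jump T d
  have hG := hU.good_ext (hm := hm) hJ hP
  refine ⟨U.ext m h ρ hm W, hG, ?_, ⟨_, inv_create hJ hG hd hT⟩, ?_⟩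
  · have := lev_aux2 (l := U.l) hm2
    have := hU.l_pos
    change U.l < m * U.l + ρ
    omega
  · rintro T' d' N' hT' ⟨ν, A, Z, G, hI⟩
    exact hI.ext hJ hT'

/-- the whole family -/
theorem exists_family (F : Type) [Field F] [Infinite F] :
    ∃ U : ℕ → Sys F, (∀ k, Good (U k)) ∧ (∀ k, k ≤ (U k).l) ∧
      ∀ T : Fin 8 → List L, ∃ N, ∀ k, ∃ ν : (U k).Q → ℕ, (∀ p, ν p < N) ∧
        ∀ i, Fil ν 1 ((U k).gev (T i) - 1) := by
  obtain ⟨e, he⟩ := exists_surjective_nat (Fin 8 → List L)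
  let d : (Fin 8 → List L) → ℕ := fun T => ∑ i, (T i).length
  have hd : ∀ T k, (T k).length ≤ d T := fun T k =>
    Finset.single_le_sum (f := fun i => (T i).length) (fun _ _ => Nat.zero_le _)
      (Finset.mem_univ k)
  choose nx h1 h2 h3 h4 using fun (U : {U : Sys F // Good U}) (T : Fin 8 → List L) =>
    U.2.step T (d T)
  let V : ℕ → {U : Sys F // Good U} := fun n =>
    Nat.rec ⟨base F, good_base⟩ (fun k U => ⟨nx U (e k), h1 U (e k)⟩) n
  have hV : ∀ k, (V (k + 1)).1 = nx (V k) (e k) := fun k => rfl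
  refine ⟨fun k => (V k).1, fun k => (V k).2, ?_, ?_⟩
  · intro k
    induction k with
    | zero => omega
    | succ k ih =>
      have := h2 (V k) (e k)
      simp only at ih ⊢
      rw [hV]; omega
  · intro T
    obtain ⟨k0, rfl⟩ := he T
    obtain ⟨N, hN⟩ := h3 (V k0) (e k0)
    have h5 : ∀ k, k0 + 1 ≤ k → Inv (V k).1 (e k0) (d (e k0)) N := by
      intro k hk
      induction hk with
      | refl => exact hN
      | step _ ih => exact h4 _ _ _ _ _ (hd _) ih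
    refine ⟨4 * N + ∑ k ∈ Finset.range (k0 + 1), (V k).1.H, fun k => ?_⟩
    by_cases hk : k0 + 1 ≤ k
    · obtain ⟨ν, A, Z, G, hI⟩ := h5 k hk
      refine ⟨ν, fun p => by have := hI.lt p; omega, fun i p q h => hI.inc p q ⟨i, h⟩⟩
    · refine ⟨(V k).1.ht, fun p => ?_, fun i p q h => (V k).2.E_ht ⟨i, h⟩⟩
      have h6 := (V k).2.ht_lt p
      have h7 : (V k).1.H ≤ ∑ k ∈ Finset.range (k0 + 1), (V k).1.H :=
        Finset.single_le_sum (f := fun k => (V k).1.H) (fun _ _ => Nat.zero_le _)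
          (Finset.mem_range.2 (by omega))
      omega

lemma Good.gev_ne_one {U : Sys F} (hU : Good U) {x : ℕ → L} (hx : Tgt x) {n : ℕ} (hn : 0 < n)
    (hl : n < U.l) : U.gev (seg x n) ≠ 1 := by
  intro h
  have h1 := hU.pass x hx
  rw [show U.l - 1 = n + (U.l - 1 - n) by omega, seg_add, pr_append] at h1
  obtain ⟨q, h2, -⟩ := mul_ne h1
  have h3 := pr_top_lev U.π U.X _ _ _ h2
  have h4 : (fun j => top U.π (U.X j)) = fun j => top U.π (1 + U.X j) := by
    funext j; ext p q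
    simp only [top, Matrix.add_apply]
    split_ifs with h5
    · rw [one_apply_ne, zero_add]
      rintro rfl; omega
    · rfl
  rw [h4, ← pr_top U.π (fun j => 1 + U.X j) _ _ _ _ h3] at h2
  · have h5 : pr (fun j => 1 + U.X j) (seg x n) = 1 := h
    rw [h5] at h2
    rw [← one_ne h2, seg_length] at h3
    omega
  · intro j p q h5
    rcases add_ne h5 with h6 | h6
    · rw [one_ne h6]; omega
    · exact hU.e_pi _ _ _ h6

lemma Good.X_sq {U : Sys F} (hU : Good U) (j : L) : U.X j * U.X j = 0 := by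
  ext p q
  by_contra hc
  obtain ⟨r, h1, h2⟩ := mul_ne hc
  exact hU.e_q _ _ _ h1 (hU.e_p _ _ _ h2)

end Pool.Agent.Lib.MP_a45045_al
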