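import Pool.Agent.Lib.MP_a45045_al.Main

/-! The counterexample is a finitely generated 2-group, with both subgroups of index two. -/

namespace Pool.Agent.Lib.MP_a45045_al

lemma two_halves {E : Type} [Group E] (h : Engel (Wr E)) : ∃ H K : Subgroup (Wr (Wr E)),
    H.Normal ∧ K.Normal ∧ H.index = 2 ∧ K.index = 2 ∧ (∀ g, ∃ a ∈ H, ∃ b ∈ K, g = a * b) ∧
    (∀ x ∈ H, ∀ y ∈ H, ∃ n : ℕ, (cm y)^[n] x = 1) ∧
    ∀ x ∈ K, ∀ y ∈ K, ∃ n : ℕ, (cm y)^[n] x = 1 := by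
  let H : Subgroup (Wr (Wr E)) :=
    { carrier := {g | g.s = false}
      mul_mem' := by intro a b ha hb; simp_all
      one_mem' := rfl
      inv_mem' := by intro a ha; simp_all }
  let K : Subgroup (Wr (Wr E)) :=
    { carrier := {g | g.a.s = g.b.s}
      mul_mem' := by
        rintro ⟨a, b, s⟩ ⟨a', b', s'⟩ ha hb
        cases s <;> simp_all
      one_mem' := rfl
      inv_mem' := by
        rintro ⟨a, b, s⟩ ha
        cases s <;> simp_all }
  have hH : ∀ g, g ∈ H ↔ g.s = false := fun g => Iff.rfl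
  have hK : ∀ g, g ∈ K ↔ g.a.s = g.b.s := fun g => Iff.rfl
  refine ⟨H, K, ⟨?_⟩, ⟨?_⟩, ?_, ?_, ?_, fun x hx y hy => engel_base h x y hx hy, ?_⟩
  · intro n hn g
    rw [hH] at hn ⊢
    simp [hn]
  · rintro ⟨a, b, s⟩ hn ⟨a', b', s'⟩
    rw [hK] at hn ⊢
    simp only at hn
    cases s <;> cases s' <;> simp [hn, Bool.xor_comm, Bool.xor_left_comm]
  · refine Subgroup.index_eq_two_iff.2 ⟨⟨1, 1, true⟩, ?_⟩
    rintro ⟨a, b, s⟩
    rw [hH, hH]
    cases s <;> simp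
  · refine Subgroup.index_eq_two_iff.2 ⟨⟨⟨1, 1, true⟩, 1, false⟩, ?_⟩
    rintro ⟨⟨a, b, s⟩, ⟨a', b', s'⟩, t⟩
    rw [hK, hK]
    cases s <;> cases s' <;> cases t <;> simp
  · rintro ⟨a, b, s⟩
    exact ⟨⟨a, b, false⟩, rfl, ⟨1, 1, s⟩, rfl, by ext <;> simp⟩
  · intro x hx y hy
    have h1 : (cm y x).s = false := Wr.cm_s x y
    suffices ∃ n, (cm y)^[n] (cm y x) = 1 by
      obtain ⟨n, hn⟩ := this
      exact ⟨n + 1, hn⟩
    by_cases hs : y.s = false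
    · exact engel_base h _ _ h1 hs
    have h2 : (cm y x).a.s = false ∧ (cm y x).b.s = false := by
      obtain ⟨⟨a, b, s⟩, ⟨a', b', s'⟩, t⟩ := x
      obtain ⟨⟨c, d, r⟩, ⟨c', d', r'⟩, t'⟩ := y
      rw [hK] at hx hy
      simp only at hx hy
      subst hx hy
      cases s <;> cases r <;> cases t <;> cases t' <;> simp [cm]
    generalize cm y x = z at h1 h2
    obtain ⟨⟨a, b, s⟩, ⟨a', b', s'⟩, t⟩ := z
    obtain ⟨⟨c, d, r⟩, ⟨c', d', r'⟩, t'⟩ := y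
    rw [hK] at hy
    simp only [Bool.not_eq_false] at h1 h2 hy hs
    obtain ⟨h2, h3⟩ := h2
    subst h1 h2 h3 hy hs
    cases r
    · obtain ⟨n, hn⟩ := h.prod (⟨a, a', false⟩, ⟨b, b', false⟩) (⟨c, c', true⟩, ⟨d, d', true⟩)
      refine ⟨n, ?_⟩
      have := iter_semiconj (cm (⟨⟨c, d, false⟩, ⟨c', d', false⟩, true⟩ : Wr (Wr E)))
        (cm ((⟨c, c', true⟩ : Wr E), (⟨d, d', true⟩ : Wr E)))
        (fun p => ⟨⟨p.1.a, p.2.a, false⟩, ⟨p.1.b, p.2.b, false⟩, false⟩)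
        (fun p => p.1.s = false ∧ p.2.s = false)
        (fun p _ => ⟨Wr.cm_s _ _, Wr.cm_s _ _⟩)
        (fun p hp => by ext <;> simp [cm, hp.1, hp.2]) n (⟨a, a', false⟩, ⟨b, b', false⟩)
        ⟨rfl, rfl⟩
      rw [hn] at this
      exact this
    · obtain ⟨n, hn⟩ := h.prod (⟨a, b', false⟩, ⟨b, a', false⟩) (⟨c, d', true⟩, ⟨d, c', true⟩)
      refine ⟨n, ?_⟩
      have := iter_semiconj (cm (⟨⟨c, d, true⟩, ⟨c', d', true⟩, true⟩ : Wr (Wr E)))
        (cm ((⟨c, d', true⟩ : Wr E), (⟨d, c', true⟩ : Wr E)))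
        (fun p => ⟨⟨p.1.a, p.2.a, false⟩, ⟨p.2.b, p.1.b, false⟩, false⟩)
        (fun p => p.1.s = false ∧ p.2.s = false)
        (fun p _ => ⟨Wr.cm_s _ _, Wr.cm_s _ _⟩)
        (fun p hp => by ext <;> simp [cm, hp.1, hp.2]) n (⟨a, b', false⟩, ⟨b, a', false⟩)
        ⟨rfl, rfl⟩
      rw [hn] at this
      exact this

lemma two_of_engel {E : Type} [Group E] (h : Engel (Wr E)) : IsPGroup 2 E := by
  intro g
  obtain ⟨n, hn⟩ := h ⟨g⁻¹, g, false⟩ ⟨1, 1, true⟩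
  have key : ∀ (n : ℕ) (g : E), (cm (⟨1, 1, true⟩ : Wr E))^[n] ⟨g⁻¹, g, false⟩ =
      ⟨(g ^ (-2 : ℤ) ^ n)⁻¹, g ^ (-2 : ℤ) ^ n, false⟩ := by
    intro n g
    induction n with
    | zero => simp
    | succ n ih =>
      rw [Function.iterate_succ_apply', ih, pow_succ, zpow_mul]
      ext <;> simp [cm, pow_two]
  have h1 : g ^ (-2 : ℤ) ^ n = 1 := by simpa [key] using congrArg Wr.b hn
  refine ⟨n, ?_⟩
  rcases neg_one_pow_eq_or ℤ n with e | e <;> rw [neg_pow, e] at h1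
  · exact_mod_cast (by simpa using h1 : g ^ ((2 : ℤ) ^ n) = 1)
  · exact_mod_cast (by simpa using h1 : g ^ ((2 : ℤ) ^ n) = 1)

lemma two_wr {E : Type} [Group E] (h : IsPGroup 2 E) : IsPGroup 2 (Wr E) := by
  intro x
  have key : ∀ (n : ℕ) (a b : E), (⟨a, b, false⟩ : Wr E) ^ n = ⟨a ^ n, b ^ n, false⟩ := by
    intro n a b
    induction n with
    | zero => rw [pow_zero, pow_zero, pow_zero]; rfl
    | succ n ih => rw [pow_succ, ih]; ext <;> simp [pow_succ]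
  have e : x ^ 2 = ⟨(x ^ 2).a, (x ^ 2).b, false⟩ := by ext <;> simp [pow_two]
  obtain ⟨i, hi⟩ := h (x ^ 2).a
  obtain ⟨j, hj⟩ := h (x ^ 2).b
  refine ⟨i + j + 1, ?_⟩
  rw [pow_succ', pow_mul, e, key, pow_add, pow_mul, hi, mul_comm, pow_mul, hj, one_pow, one_pow]
  rfl

lemma fg_wr {E : Type} [Group E] (h : Group.FG E) : Group.FG (Wr E) := by
  obtain ⟨S, hS, hf⟩ := Group.fg_iff.1 h
  let ι : E →* Wr E := ⟨⟨fun a => ⟨a, 1, false⟩, rfl⟩, fun a b => by ext <;> simp⟩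
  refine Group.fg_iff.2 ⟨insert ⟨1, 1, true⟩ (ι '' S), eq_top_iff.2 ?_, (hf.image _).insert _⟩
  set C := Subgroup.closure (insert ⟨1, 1, true⟩ (ι '' S))
  have h1 : (⟨1, 1, true⟩ : Wr E) ∈ C := Subgroup.subset_closure (Set.mem_insert _ _)
  have h2 : ∀ a, ι a ∈ C := fun a => Subgroup.closure_mono (Set.subset_insert _ _) (by
    rw [← MonoidHom.map_closure, hS]; exact ⟨a, trivial, rfl⟩)
  rintro ⟨a, b, s⟩ -
  have h3 := C.mul_mem (h2 a) (C.mul_mem (C.mul_mem h1 (h2 b)) h1)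
  cases s
  · convert h3 using 1
    ext <;> simp [ι]
  · convert C.mul_mem h3 h1 using 1
    ext <;> simp [ι]

lemma fg_EE {F : Type} [Field F] [CharP F 2] (U : ℕ → Sys F) (hU : ∀ k, Good (U k)) :
    Group.FG (EE U hU) := by
  refine (Group.fg_iff_subgroup_fg _).2 ((Subgroup.fg_iff _).2
    ⟨Set.range (yy U hU), le_antisymm ?_ ?_, Set.finite_range _⟩)
  · rw [Subgroup.closure_le]
    rintro _ ⟨j, rfl⟩
    exact ⟨[j], by simp⟩
  · rintro _ ⟨u, rfl⟩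
    induction u with
    | nil => exact Subgroup.one_mem _
    | cons j u ih =>
      rw [pr_cons]
      exact Subgroup.mul_mem _ (Subgroup.subset_closure ⟨j, rfl⟩) ih

theorem exists_step : ∃ (E : Type) (_ : Group E), Group.FG E ∧ Engel (Wr E) ∧
    ¬Engel (Wr (Wr E)) := by
  by_contra hn
  push Not at hn
  have key : ∀ (k : ℕ) (E : Type) [Group E], Group.FG E → Engel (Wr E) → Conv E (2 ^ (k + 1)) := by
    intro k
    induction k with
    | zero => intro E _ _ h; exact h.conv.double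
    | succ k ih =>
      intro E _ f h
      rw [pow_succ']
      exact (ih (Wr E) (fg_wr f) (hn E _ f h)).double
  obtain ⟨U, hU, hl, hT⟩ := exists_family (AlgebraicClosure (ZMod 2))
  exact not_conv U hU hl (key 7 _ (fg_EE U hU) (engel_EE U hU hT))

lemma engel_sub {G : Type} [Group G] {H : Subgroup G}
    (h : ∀ x ∈ H, ∀ y ∈ H, ∃ n : ℕ, (cm y)^[n] x = 1) : Engel H := by
  intro x y
  obtain ⟨n, hn⟩ := h x x.2 y y.2
  refine ⟨n, Subtype.ext ?_⟩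
  exact (iter_semiconj (cm (y : G)) (cm y) Subtype.val (fun _ => True) (fun _ _ => trivial)
    (fun _ _ => rfl) n x trivial).symm.trans hn

end Pool.Agent.Lib.MP_a45045_al
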