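import Pool.Agent.Lib.MP_a45045_al.Basic

namespace Pool.Agent.Lib.MP_a45045_al

open Matrix

/-- a finite weighted automaton with bookkeeping -/
structure Sys (F : Type) [Field F] where
  Q : Type
  [fin : Fintype Q]
  [dec : DecidableEq Q]
  X : L → Matrix Q Q F
  π : Q → ℕ
  ht : Q → ℕ
  H : ℕ
  l : ℕ
  i : Q
  o : Q
  Φ0 : Finset Q
  Φ1 : Finset Q

attribute [instance] Sys.fin Sys.dec

variable {F : Type} [Field F]

def Sys.link (U : Sys F) (j : L) : Matrix U.Q U.Q F :=
  fun p q => if j.val % 2 = 1 ∧ p = U.o ∧ q = U.i then 1 else 0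

/-- the cyclic top system -/
def Sys.C (U : Sys F) (j : L) : Matrix U.Q U.Q F := top U.π (U.X j) + U.link j

def Sys.Uniq (U : Sys F) (a : U.Q) : Prop := ∀ q, U.π q = U.π a → q = a

structure Good (U : Sys F) : Prop where
  e_pi : ∀ j p q, U.X j p q ≠ 0 → U.π q ≤ U.π p + 1
  e_p : ∀ j p q, U.X j p q ≠ 0 → U.π p % 2 = j.val % 2
  e_q : ∀ j p q, U.X j p q ≠ 0 → U.π q % 2 ≠ j.val % 2
  e_ht : ∀ j p q, U.X j p q ≠ 0 → U.ht p < U.ht q
  ht_lt : ∀ p, U.ht p < U.H
  pi_lt : ∀ p, U.π p < U.l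
  l_mod : U.l % 4 = 2
  pi_i : U.π U.i = 0
  pi_o : U.π U.o + 1 = U.l
  i_mem : U.i ∈ U.Φ0
  o_mem : U.o ∈ U.Φ1
  par0 : ∀ a ∈ U.Φ0, U.π a % 2 = 0
  par1 : ∀ b ∈ U.Φ1, U.π b % 2 = 1
  uniq0 : ∀ a ∈ U.Φ0, U.Uniq a
  uniq1 : ∀ b ∈ U.Φ1, U.Uniq b
  fs : ∀ b ∈ U.Φ1, ∀ (j j' : L) p, j.val % 2 = 0 → j'.val % 2 = 0 → U.X j p b = U.X j' p b
  card0 : Fintype.card U.Q < 3 * U.Φ0.card
  card1 : Fintype.card U.Q < 3 * U.Φ1.card
  pass : ∀ x, Tgt x → pr (fun j => top U.π (U.X j)) (seg x (U.l - 1)) U.i U.o ≠ 0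

/-- the first system -/
def base (F : Type) [Field F] : Sys F where
  Q := Bool
  X j := fun p q => if j.val % 2 = 0 ∧ p = false ∧ q = true then 1 else 0
  π p := if p then 1 else 0
  ht p := if p then 1 else 0
  H := 2
  l := 2
  i := false
  o := true
  Φ0 := {false}
  Φ1 := {true}

lemma base_ne {j : L} {p q : Bool} (h : (base F).X j p q ≠ 0) :
    j.val % 2 = 0 ∧ p = false ∧ q = true := by
  by_contra hc
  exact h (if_neg hc)

lemma good_base : Good (base F) where
  e_pi j p q h := by obtain ⟨-, rfl, rfl⟩ := base_ne h; simp [base]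
  e_p j p q h := by obtain ⟨h1, rfl, rfl⟩ := base_ne h; simp [base, h1]
  e_q j p q h := by obtain ⟨h1, rfl, rfl⟩ := base_ne h; simp [base, h1]
  e_ht j p q h := by obtain ⟨-, rfl, rfl⟩ := base_ne h; simp [base]
  ht_lt p := by cases p <;> simp [base]
  pi_lt p := by cases p <;> simp [base]
  l_mod := rfl
  pi_i := rfl
  pi_o := rfl
  i_mem := Finset.mem_singleton_self _
  o_mem := Finset.mem_singleton_self _
  par0 a ha := by
    have : a = false := Finset.mem_singleton.1 ha
    subst this; rfl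
  par1 a ha := by
    have : a = true := Finset.mem_singleton.1 ha
    subst this; rfl
  uniq0 a ha q hq := by
    have : a = false := Finset.mem_singleton.1 ha
    subst this
    cases q
    · rfl
    · simp [base] at hq
  uniq1 a ha q hq := by
    have : a = true := Finset.mem_singleton.1 ha
    subst this
    cases q
    · simp [base] at hq
    · rfl
  fs b _ j j' p h h' := by simp [base, h, h']
  card0 := by
    change Fintype.card Bool < 3 * ({false} : Finset Bool).card
    simp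
  card1 := by
    change Fintype.card Bool < 3 * ({true} : Finset Bool).card
    simp
  pass x hx := by
    have h := hx.parity 0
    have h2 : (base F).l - 1 = 0 + 1 := rfl
    rw [h2, seg_succ, pr_concat, seg_zero, pr_nil, one_mul]
    simp [base, top, h]

namespace Good

variable {U : Sys F} (hU : Good U)
include hU

lemma l_pos : 0 < U.l := by have := hU.l_mod; omega

lemma uniq_i : U.Uniq U.i := hU.uniq0 _ hU.i_mem
lemma uniq_o : U.Uniq U.o := hU.uniq1 _ hU.o_mem

omit hU in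
lemma link_ne {j : L} {p q : U.Q} (h : U.link j p q ≠ 0) :
    j.val % 2 = 1 ∧ p = U.o ∧ q = U.i := by
  by_contra hc
  exact h (if_neg hc)

omit hU in
lemma C_ne {j : L} {p q : U.Q} (h : U.C j p q ≠ 0) :
    U.π q = U.π p + 1 ∨ (p = U.o ∧ q = U.i) := by
  rcases add_ne h with h | h
  · left; by_contra hc; exact h (if_neg hc)
  · exact Or.inr (link_ne h).2

lemma C_lev {j : L} {p q : U.Q} (h : U.C j p q ≠ 0) : U.π q = (U.π p + 1) % U.l := by
  rcases C_ne h with h | ⟨rfl, rfl⟩
  · rw [← h, Nat.mod_eq_of_lt (hU.pi_lt q)]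
  · rw [hU.pi_o, hU.pi_i]; simp

lemma prC_lev (u : List L) (p : U.Q) :
    ∀ q, pr U.C u p q ≠ 0 → U.π q = (U.π p + u.length) % U.l := by
  induction u using List.reverseRecOn with
  | nil => intro q h; rw [one_ne h]; simp [Nat.mod_eq_of_lt (hU.pi_lt q)]
  | append_singleton u j ih =>
    intro q h
    rw [pr_concat] at h
    obtain ⟨r, h1, h2⟩ := mul_ne h
    rw [hU.C_lev h2, ih r h1]
    simp [add_assoc]

lemma prC_eq_top (u : List L) (p : U.Q) (hp : U.π p + u.length < U.l) :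
    ∀ q, pr U.C u p q = pr (fun j => top U.π (U.X j)) u p q := by
  induction u using List.reverseRecOn with
  | nil => intro q; rfl
  | append_singleton u j ih =>
    intro q
    simp only [List.length_append, List.length_singleton] at hp
    rw [pr_concat, pr_concat, mul_apply, mul_apply]
    apply Finset.sum_congr rfl
    intro r _
    rw [ih (by omega) r, Sys.C, Matrix.add_apply, mul_add, add_eq_left]
    by_contra hc
    have h1 := pr_top_lev U.π U.X u p r (left_ne_zero_of_mul hc)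
    have h2 := (link_ne (right_ne_zero_of_mul hc)).2.1
    have := hU.pi_o
    rw [h2] at h1
    omega

lemma cut (x : ℕ → L) (n k : ℕ) {a : U.Q} (ha : U.Uniq a) (hn : U.π a = n % U.l) (q : U.Q) :
    pr U.C (seg x (n + k)) U.i q = pr U.C (seg x n) U.i a * pr U.C (seg (shift x n) k) a q := by
  rw [seg_add, pr_append]
  apply mul_cut
  intro r h1 _
  apply ha
  rw [hU.prC_lev _ _ _ h1, hU.pi_i, hn]; simp

lemma cyc_pass_one {x : ℕ → L} (hx : Tgt x) : pr U.C (seg x U.l) U.i U.i ≠ 0 := by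
  have h1 := hU.pi_o
  have h2 := hU.l_mod
  have h3 : U.l = (U.l - 1) + 1 := by omega
  have h4 := hU.cut x (U.l - 1) 1 hU.uniq_o (by rw [Nat.mod_eq_of_lt] <;> omega) U.i
  rw [← h3] at h4
  rw [h4, hU.prC_eq_top _ _ (by rw [hU.pi_i]; simp; omega)]
  apply mul_ne_zero (hU.pass x hx)
  have h5 : (x (U.l - 1)).val % 2 = 1 := by rw [hx.parity]; omega
  have h6 : U.π U.i ≠ U.π U.o + 1 := by rw [hU.pi_i]; omega
  simp [seg, shift, Sys.C, Sys.link, top, h5, h6]

lemma cyc_pass (k : ℕ) : ∀ {x : ℕ → L}, Tgt x → pr U.C (seg x (k * U.l)) U.i U.i ≠ 0 := by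
  induction k with
  | zero => intro x _; simp
  | succ k ih =>
    intro x hx
    have h2 := hU.l_mod
    rw [show (k + 1) * U.l = U.l + k * U.l by ring, hU.cut x _ _ hU.uniq_i (by simp [hU.pi_i])]
    exact mul_ne_zero (hU.cyc_pass_one hx) (ih (hx.shift (by omega)))

lemma left_ne {x : ℕ → L} (hx : Tgt x) (n : ℕ) {a : U.Q} (ha : U.Uniq a)
    (hn : U.π a = n % U.l) : pr U.C (seg x n) U.i a ≠ 0 := by
  have h1 := hU.cyc_pass n hx
  have h2 : n ≤ n * U.l := Nat.le_mul_of_pos_right _ hU.l_pos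
  rw [show n * U.l = n + (n * U.l - n) by omega, hU.cut x _ _ ha hn] at h1
  exact left_ne_zero_of_mul h1

lemma right_ne {x : ℕ → L} (hx : Tgt x) (n k : ℕ) {a : U.Q} (ha : U.Uniq a)
    (hn : U.π a = n % U.l) (hk : U.π U.o = (n + k) % U.l) :
    pr U.C (seg (shift x n) k) a U.o ≠ 0 := by
  have h1 := hU.left_ne hx (n + k) hU.uniq_o hk
  rw [hU.cut x _ _ ha hn] at h1
  exact right_ne_zero_of_mul h1

end Good

/-- level in a chain of copies -/
def Sys.lev (U : Sys F) {m : ℕ} (a : Fin m × U.Q) : ℕ := a.1.val * U.l + U.π a.2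

def Sys.Y (U : Sys F) (m : ℕ) (j : L) : Matrix (Fin m × U.Q) (Fin m × U.Q) F :=
  strand m (U.X j) (U.link j)

def Sys.G (U : Sys F) (m : ℕ) (j : L) : Matrix (Fin m × U.Q) (Fin m × U.Q) F :=
  fun a b => if U.lev b = U.lev a + 1 then U.C j a.2 b.2 else 0

lemma lev_aux {l c c' p q : ℕ} (hp : p < l) (h : c < c') : c * l + p < c' * l + q := by
  have : (c + 1) * l ≤ c' * l := Nat.mul_le_mul_right _ h
  nlinarith

lemma lev_aux2 {l c c' : ℕ} (h : c ≤ c') : c * l ≤ c' * l := Nat.mul_le_mul_right _ h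

namespace Good

variable {U : Sys F} (hU : Good U)
include hU

lemma lev_inj {m : ℕ} {a b : Fin m × U.Q} (h : U.lev a = U.lev b) :
    a.1 = b.1 ∧ U.π a.2 = U.π b.2 := by
  unfold Sys.lev at h
  have h1 : a.1.val = b.1.val := by
    rcases lt_trichotomy a.1.val b.1.val with h1 | h1 | h1
    · have := lev_aux (q := U.π b.2) (hU.pi_lt a.2) h1; omega
    · exact h1
    · have := lev_aux (q := U.π a.2) (hU.pi_lt b.2) h1; omega
  refine ⟨Fin.ext h1, ?_⟩
  rw [h1] at h; omega

lemma lev_lt {m : ℕ} (a : Fin m × U.Q) : U.lev a < m * U.l := by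
  have := lev_aux (q := 0) (hU.pi_lt a.2) a.1.2
  exact this

omit hU in
lemma Y_ne {m : ℕ} {j : L} {a b : Fin m × U.Q} (h : U.Y m j a b ≠ 0) :
    (a.1 = b.1 ∧ U.X j a.2 b.2 ≠ 0) ∨
      (a.1.val + 1 = b.1.val ∧ j.val % 2 = 1 ∧ a.2 = U.o ∧ b.2 = U.i) := by
  rcases strand_ne h with h | h
  · exact Or.inl h
  · exact Or.inr ⟨h.1, link_ne h.2⟩

lemma top_Y (m : ℕ) (j : L) : top U.lev (U.Y m j) = U.G m j := by
  ext ⟨c, p⟩ ⟨c', q⟩
  simp only [top, Sys.G]
  split_ifs with h
  · simp only [Sys.lev] at h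
    have hp := hU.pi_lt p
    have hq := hU.pi_lt q
    simp only [Sys.Y, strand, Sys.C, Matrix.add_apply, top]
    rcases lt_trichotomy c.val c'.val with h1 | h1 | h1
    · have h2 : c ≠ c' := by intro h3; rw [h3] at h1; omega
      have h3 : c.val + 1 = c'.val := by
        by_contra h4
        have := lev_aux2 (l := U.l) (show c.val + 2 ≤ c'.val by omega)
        have := hU.l_pos
        nlinarith
      have h4 : U.π q ≠ U.π p + 1 := by
        rw [← h3] at h
        have := hU.l_pos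
        intro h5; nlinarith
      simp [h2, h3, h4]
    · have h2 : c = c' := Fin.ext h1
      subst h2
      have h3 : U.π q = U.π p + 1 := by omega
      have h4 : U.link j p q = 0 := by
        by_contra hc
        have := (link_ne hc).2.2
        rw [this, hU.pi_i] at h3
        omega
      simp [h3, h4]
    · have := lev_aux (q := U.π p) hq h1
      omega
  · rfl

lemma exists_pred {m : ℕ} {j : L} {r : U.Q} {b : Fin m × U.Q} (h : U.C j r b.2 ≠ 0)
    (hb : U.lev b ≠ 0) : ∃ c : Fin m, U.lev (c, r) + 1 = U.lev b := by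
  obtain ⟨c', q⟩ := b
  rcases C_ne h with h1 | ⟨rfl, h1⟩
  · exact ⟨c', by simp only [Sys.lev] at h1 ⊢; omega⟩
  · simp only at h1
    subst h1
    simp only [Sys.lev, hU.pi_i, add_zero] at hb ⊢
    have h1 : c'.val ≠ 0 := by intro h2; rw [h2] at hb; simp at hb
    refine ⟨⟨c'.val - 1, by omega⟩, ?_⟩
    obtain ⟨k, hk⟩ : ∃ k, c'.val = k + 1 := ⟨c'.val - 1, by omega⟩
    have := hU.pi_o
    simp only [hk, Nat.add_sub_cancel]
    nlinarith

lemma mul_G {m : ℕ} (j : L) (M : Matrix (Fin m × U.Q) (Fin m × U.Q) F) (a : Fin m × U.Q)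
    (φ : U.Q → F) (ρ n : ℕ) (hM : ∀ b, M a b = if U.lev b + ρ = n then φ b.2 else 0)
    (h0 : n + 1 = ρ → ∀ r, φ r = 0) (b : Fin m × U.Q) :
    (M * U.G m j) a b = if U.lev b + ρ = n + 1 then ∑ r, φ r * U.C j r b.2 else 0 := by
  rw [mul_apply, Fintype.sum_prod_type, Finset.sum_comm]
  simp only [hM, Sys.G]
  split_ifs with h
  · apply Finset.sum_congr rfl
    intro r _
    by_cases hC : U.C j r b.2 = 0
    · simp [hC]
    by_cases hb : U.lev b = 0
    · simp [h0 (by omega) r]
    obtain ⟨c, hc⟩ := hU.exists_pred hC hb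
    rw [Finset.sum_eq_single c]
    · rw [if_pos (by omega), if_pos hc.symm]
    · intro c' _ hc'
      rw [if_neg, zero_mul]
      intro h2
      exact hc' (hU.lev_inj (a := (c', r)) (b := (c, r)) (by omega)).1
    · simp
  · apply Finset.sum_eq_zero
    intro r _
    apply Finset.sum_eq_zero
    intro c _
    split_ifs with h1 h2
    · omega
    all_goals simp

lemma pr_G {m : ℕ} (u : List L) (a : Fin m × U.Q) :
    ∀ b, pr (U.G m) u a b = if U.lev b + 0 = U.lev a + u.length then pr U.C u a.2 b.2 else 0 := by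
  induction u using List.reverseRecOn with
  | nil =>
    rintro ⟨c', q⟩
    obtain ⟨c, p⟩ := a
    simp only [pr_nil, one_apply, List.length_nil, add_zero, Prod.mk.injEq]
    by_cases h : p = q
    · subst h
      by_cases h2 : c = c'
      · simp [h2]
      · have : U.lev (c', p) ≠ U.lev (c, p) := fun h3 => h2 (hU.lev_inj h3).1.symm
        simp [h2, this]
    · simp [h]
  | append_singleton u j ih =>
    intro b
    rw [pr_concat, pr_concat, hU.mul_G j _ a (fun r => pr U.C u a.2 r) 0 _ ih (by omega), mul_apply]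
    simp [add_assoc]

end Good

end Pool.Agent.Lib.MP_a45045_al
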