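import Mathlib

namespace Pool.Agent.Lib.MP_a45045_al

/-- letters -/
abbrev L := ZMod 256

/-- number of runs in the binary expansion -/
def g : ℕ → ℕ
  | 0 => 0
  | n+1 => g ((n+1)/2) + (if (n+1) % 2 = ((n+1)/2) % 2 then 0 else 1)
decreasing_by omega

lemma g_zero : g 0 = 0 := by rw [g]

lemma g_rec (n : ℕ) : g n = g (n/2) + (if n % 2 = (n/2) % 2 then 0 else 1) := by
  cases n with
  | zero => simp [g_zero]
  | succ n => rw [g]

lemma g_two_mul_add (a b : ℕ) (hb : b < 2) :
    g (2*a+b) = g a + (if b = a % 2 then 0 else 1) := by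
  rw [g_rec]
  have h1 : (2*a+b)/2 = a := by omega
  have h2 : (2*a+b)%2 = b := by omega
  rw [h1, h2]

lemma g_one : g 1 = 1 := by
  have := g_two_mul_add 0 1 (by omega)
  simpa [g_zero] using this

lemma g_two : g 2 = 2 := by
  have := g_two_mul_add 1 0 (by omega)
  simpa [g_one] using this

lemma g_three : g 3 = 1 := by
  have := g_two_mul_add 1 1 (by omega)
  simpa [g_one] using this

lemma g_mod (n : ℕ) : g n % 2 = n % 2 := by
  induction n using Nat.strong_induction_on with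
  | _ n ih =>
    rcases Nat.eq_zero_or_pos n with rfl | h
    · simp [g_zero]
    · have := ih (n/2) (by omega)
      rw [g_rec n]
      split_ifs <;> omega

lemma g_concat (J : ℕ) (hJ : J % 2 = 0) (K : ℕ) : ∀ r, r < 2^K → g (2^K * J + r) = g J + g r := by
  induction K with
  | zero => intro r hr; have : r = 0 := by omega
            subst this; simp [g_zero]
  | succ K ih =>
    intro r hr
    have h1 : 2^(K+1) * J + r = 2 * (2^K * J + r/2) + r % 2 := by
      rw [pow_succ]; have : 2^K * 2 * J = 2 * (2^K * J) := by ring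
      omega
    have h2 : (2^K * J + r/2) % 2 = (r/2) % 2 := by
      obtain ⟨J', rfl⟩ : ∃ J', J = 2 * J' := ⟨J/2, by omega⟩
      have : 2^K * (2 * J') = 2 * (2^K * J') := by ring
      omega
    rw [h1, g_two_mul_add _ _ (by omega), h2, ih (r/2) (by rw [pow_succ] at hr; omega), g_rec r]
    omega

lemma g_refl (n : ℕ) : ∀ s, s < 2^n → g (2^n + s) = g (2^n - 1 - s) + 1 := by
  induction n with
  | zero => intro s hs; have : s = 0 := by omega
            subst this; simp [g_zero, g_one]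
  | succ n ih =>
    intro s hs
    rw [pow_succ] at hs ⊢
    have h1 : 2^n * 2 + s = 2 * (2^n + s/2) + s % 2 := by omega
    have h2 : 2^n * 2 - 1 - s = 2 * (2^n - 1 - s/2) + (1 - s % 2) := by omega
    rw [h1, h2, g_two_mul_add _ _ (by omega), g_two_mul_add _ _ (by omega), ih (s/2) (by omega)]
    split_ifs <;> omega

lemma g_pow_mul_odd (a : ℕ) (ha : a % 2 = 1) (k : ℕ) : g (2^(k+1) * a) = g a + 1 := by
  induction k with
  | zero =>
    have := g_two_mul_add a 0 (by omega)
    simp [ha] at this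
    simpa using this
  | succ k ih =>
    have h1 : 2^(k+1+1) * a = 2 * (2^(k+1) * a) + 0 := by ring
    have h2 : (2^(k+1) * a) % 2 = 0 := by
      have : 2^(k+1) * a = 2 * (2^k * a) := by ring
      omega
    rw [h1, g_two_mul_add _ _ (by omega), h2, ih]; simp

/-- target sequences -/
def Tgt (x : ℕ → L) : Prop := ∃ e i : ℕ, ∀ t, x t = ((2*e + g (2*i+t) : ℕ) : L)

def shift (x : ℕ → L) (n : ℕ) : ℕ → L := fun t => x (n + t)

lemma shift_shift (x : ℕ → L) (a b : ℕ) : shift (shift x a) b = shift x (a + b) := by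
  funext t; simp [shift, add_assoc]

lemma Tgt.shift {x : ℕ → L} (hx : Tgt x) {n : ℕ} (hn : n % 2 = 0) : Tgt (shift x n) := by
  obtain ⟨e, i, h⟩ := hx
  refine ⟨e, i + n/2, fun t => ?_⟩
  have : 2 * (i + n/2) + t = 2 * i + (n + t) := by omega
  rw [this]; exact h _

lemma Tgt.parity {x : ℕ → L} (hx : Tgt x) (t : ℕ) : (x t).val % 2 = t % 2 := by
  obtain ⟨e, i, h⟩ := hx
  rw [h, ZMod.val_natCast]
  have := g_mod (2*i+t)
  omega

lemma tgt_g : Tgt (fun t => ((g t : ℕ) : L)) := ⟨0, 0, fun t => by simp⟩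

def seg (x : ℕ → L) (n : ℕ) : List L := (List.range n).map x

@[simp] lemma seg_zero (x : ℕ → L) : seg x 0 = [] := rfl

lemma seg_succ (x : ℕ → L) (n : ℕ) : seg x (n+1) = seg x n ++ [x n] := by
  simp [seg, List.range_succ]

@[simp] lemma seg_length (x : ℕ → L) (n : ℕ) : (seg x n).length = n := by simp [seg]

lemma seg_add (x : ℕ → L) (a b : ℕ) : seg x (a+b) = seg x a ++ seg (shift x a) b := by
  induction b with
  | zero => simp
  | succ b ih => rw [← add_assoc, seg_succ, ih, seg_succ]; simp [shift]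

lemma seg_congr {x y : ℕ → L} {n : ℕ} (h : ∀ t < n, x t = y t) : seg x n = seg y n := by
  unfold seg
  apply List.map_congr_left
  intro t ht
  exact h t (List.mem_range.1 ht)

lemma seg_reverse (x : ℕ → L) (n : ℕ) : (seg x n).reverse = seg (fun s => x (n - 1 - s)) n := by
  apply List.ext_getElem
  · simp
  · intro k h1 h2
    simp [seg]

/-- a right special factor -/
lemma special_pair {β : Type*} (p : ℕ) (hp : p % 2 = 0) (f : L → β) (j : L) (hj : j.val % 2 = 0)
    (hf : f j ≠ f 0) :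
    ∃ x x', Tgt x ∧ Tgt x' ∧ (∀ t < p, x t = x' t) ∧ f (x p) ≠ f (x' p) := by
  have : ∃ e : ℕ, f ((2*e+2 : ℕ) : L) ≠ f ((2*e : ℕ) : L) := by
    by_contra hc
    push Not at hc
    have h2 : ∀ e : ℕ, f ((2*e : ℕ) : L) = f 0 := by
      intro e
      induction e with
      | zero => simp
      | succ e ih => rw [← ih, ← hc e]; congr 2
    apply hf
    rw [← h2 (j.val / 2)]
    have : 2 * (j.val / 2) = j.val := by omega
    rw [this]; simp
  obtain ⟨e, he⟩ := this
  have hK : p < 2^p := Nat.lt_two_pow_self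
  have h2 : 2^(p+1) = 2 * 2^p := by ring
  refine ⟨fun t => ((2*e + g (2*(2^p - p/2)+t) : ℕ) : L),
    fun t => ((2*(e+127) + g (2*(3 * 2^p - p/2)+t) : ℕ) : L), ⟨e, _, fun t => rfl⟩,
    ⟨e+127, _, fun t => rfl⟩, ?_, ?_⟩
  · intro t ht
    have h3 : 2*(3 * 2^p - p/2)+t = 2^(p+1) * 2 + (2*(2^p - p/2)+t) := by omega
    simp only
    rw [h3, g_concat 2 (by omega) (p+1) _ (by omega), g_two, ZMod.natCast_eq_natCast_iff']
    omega
  · have h3 : 2*(2^p - p/2)+p = 2^(p+1) * 1 := by omega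
    have h4 : 2*(3 * 2^p - p/2)+p = 2^(p+1) * 3 := by omega
    simp only
    rw [h3, h4, g_pow_mul_odd 1 (by omega), g_pow_mul_odd 3 (by omega), g_one, g_three]
    have h5 : ((2 * (e + 127) + (1 + 1) : ℕ) : L) = ((2 * e : ℕ) : L) := by
      rw [ZMod.natCast_eq_natCast_iff']; omega
    rw [h5]
    exact he

def rr (θ : ℕ) : ℕ → ℕ
  | 0 => 0
  | m+1 => 2^(θ+2) * (rr θ m + 1)

lemma rr_mod (θ m : ℕ) : rr θ m % 4 = 0 := by
  cases m with
  | zero => rfl
  | succ m =>
    have : rr θ (m+1) = 4 * (2^θ * (rr θ m + 1)) := by rw [rr]; ring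
    omega

lemma g_rr (θ m : ℕ) : g (rr θ m) = 2 * m := by
  induction m with
  | zero => exact g_zero
  | succ m ih =>
    have h4 := rr_mod θ m
    rw [rr, g_pow_mul_odd _ (by omega)]
    have h1 := g_two_mul_add (rr θ m / 2) 1 (by omega)
    have h2 := g_two_mul_add (rr θ m / 2) 0 (by omega)
    have h3 : 2 * (rr θ m / 2) = rr θ m := by omega
    have h5 : rr θ m / 2 % 2 = 0 := by omega
    rw [h3, h5] at h1 h2
    simp at h1 h2
    omega

lemma rr_modEq (θ q : ℕ) (h : 2^(θ+2) ≡ 1 [MOD q]) (m : ℕ) : rr θ m ≡ m [MOD q] := by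
  induction m with
  | zero => rfl
  | succ m ih =>
    rw [rr]
    have := h.mul (ih.add_right 1)
    simpa using this

lemma rr_mono (θ : ℕ) : Monotone (rr θ) := by
  apply monotone_nat_of_le_succ
  intro m
  rw [rr]
  have : 1 ≤ 2^(θ+2) := Nat.one_le_two_pow
  nlinarith

/-- uniform recurrence along multiples of a number that is 2 mod 4 -/
lemma recurrence {x0 : ℕ → L} (hx0 : Tgt x0) (Λ l : ℕ) (hl : l % 4 = 2) :
    ∃ B, ∀ x, Tgt x → ∃ τ < B, ∀ t < Λ, x (τ * l + t) = x0 t := by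
  obtain ⟨e0, i0, h0⟩ := hx0
  obtain ⟨q, rfl⟩ : ∃ q, l = 2 * q := ⟨l/2, by omega⟩
  have hq : q % 2 = 1 := by omega
  have hq0 : 0 < q := by omega
  have hco : Nat.Coprime 2 q := by
    rw [Nat.coprime_two_left]; exact Nat.odd_iff.2 hq
  have hφ : 0 < Nat.totient q := Nat.totient_pos.2 hq0
  have hpw : 2^(Nat.totient q) ≡ 1 [MOD q] := Nat.ModEq.pow_totient hco
  have hpw' : ∀ k, 2^(Nat.totient q * k) ≡ 1 [MOD q] := by
    intro k; rw [pow_mul]; simpa using hpw.pow k
  obtain ⟨θ, hθ⟩ : ∃ θ, θ + 2 = Nat.totient q * 2 := ⟨Nat.totient q * 2 - 2, by omega⟩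
  have hθ' : 2^(θ+2) ≡ 1 [MOD q] := by rw [hθ]; exact hpw' 2
  set K := Nat.totient q * (2 * i0 + Λ) with hK
  set K' := rr θ (128 * q) with hK'
  have hKb : 2 * i0 + Λ < 2^K := by
    have h1 : 2 * i0 + Λ ≤ K := by rw [hK]; exact Nat.le_mul_of_pos_left _ hφ
    have h2 : K < 2^K := Nat.lt_two_pow_self
    omega
  have hP : 2^K ≡ 1 [MOD q] := hpw' _
  set P := 2^K with hPd
  set P' := 2^K' with hP'd
  have hP0 : 0 < P := by positivity
  have hP'0 : 0 < P' := by positivity
  refine ⟨3 * (P * P') + i0 + 1, ?_⟩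
  rintro x ⟨e, i, h⟩
  set J' := 2 * (i / (2 * (P * P')) + 1) with hJ'
  have hJ'1 : i < P * P' * J' ∧ P * P' * J' ≤ i + 2 * (P * P') := by
    have h1 := Nat.div_add_mod i (2 * (P * P'))
    have h2 := Nat.mod_lt i (show 0 < 2 * (P * P') by positivity)
    have h3 : P * P' * J' = 2 * (P * P') * (i / (2 * (P * P'))) + 2 * (P * P') := by
      rw [hJ']; ring
    omega
  have hco2 : Nat.Coprime 128 q := by
    have : (128 : ℕ) = 2^7 := by norm_num
    rw [this]; exact Nat.Coprime.pow_left 7 hco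
  set mm := Nat.chineseRemainder hco2 (e0 + 127 * (e + g J' / 2)) (i + (q - 1) * (i0 + P' * J'))
    with hmm
  have hm1 := mm.2.1
  have hm2 := mm.2.2
  have hm3 : (mm : ℕ) < 128 * q := Nat.chineseRemainder_lt_mul hco2 _ _ (by omega) (by omega)
  set m : ℕ := mm.1 with hm
  have hr : rr θ m < P' := by
    have h1 : rr θ m ≤ K' := rr_mono θ hm3.le
    have h2 : K' < 2^K' := Nat.lt_two_pow_self
    omega
  set J := P' * J' + rr θ m with hJ
  have hJe : J % 2 = 0 := by
    have h1 := rr_mod θ m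
    have h2 : P' * J' = 2 * (P' * (i / (2 * (P * P')) + 1)) := by rw [hJ']; ring
    omega
  have hgJ : g J = g J' + 2 * m := by
    rw [hJ, hP'd, g_concat J' (by omega) K' _ hr, g_rr]
  have hN1 : i ≤ P * J + i0 := by
    have : P * J = P * P' * J' + P * rr θ m := by rw [hJ]; ring
    omega
  have hN2 : P * J + i0 - i < 3 * (P * P') + i0 + 1 := by
    have h1 : P * J = P * P' * J' + P * rr θ m := by rw [hJ]; ring
    have h2 : P * rr θ m ≤ P * P' := Nat.mul_le_mul_left _ hr.le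
    omega
  have hmod : i ≡ P * J + i0 [MOD q] := by
    have h1 : P * J ≡ 1 * (P' * J' + (i + (q - 1) * (i0 + P' * J'))) [MOD q] :=
      hP.mul (((rr_modEq θ q hθ' m).trans hm2).add_left _)
    have h2 : 1 * (P' * J' + (i + (q - 1) * (i0 + P' * J'))) + i0 = i + q * (i0 + P' * J') := by
      obtain ⟨q', rfl⟩ : ∃ q', q = q' + 1 := ⟨q - 1, by omega⟩
      simp only [Nat.add_sub_cancel]; ring
    have h3 := h1.add_right i0
    rw [h2] at h3
    refine Nat.ModEq.trans ?_ h3.symm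
    simp [Nat.ModEq]
  obtain ⟨τ, hτ⟩ := (Nat.modEq_iff_dvd' hN1).1 hmod
  refine ⟨τ, ?_, ?_⟩
  · have : τ ≤ q * τ := Nat.le_mul_of_pos_left _ hq0
    omega
  · intro t ht
    rw [h, h0]
    have h1 : 2 * i + (τ * (2 * q) + t) = 2^(K+1) * J + (2 * i0 + t) := by
      have h2 : 2^(K+1) * J = 2 * (P * J) := by rw [hPd]; ring
      have h3 : τ * (2 * q) = 2 * (q * τ) := by ring
      omega
    have h4 : 2 * i0 + t < 2^(K+1) := by rw [pow_succ]; omega
    rw [h1, g_concat J hJe (K+1) _ h4, hgJ, ZMod.natCast_eq_natCast_iff']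
    have h5 := g_mod J'
    have h6 : J' % 2 = 0 := by omega
    unfold Nat.ModEq at hm1
    omega

/-- the reversed Engel words -/
def V (n : ℕ) (i : ℤ) : List L := seg (fun t => ((g t : ℕ) : L) - ((i + n : ℤ) : L)) (2^n)

lemma V_zero (i : ℤ) : V 0 i = [((-i : ℤ) : L)] := by
  simp [V, seg, g_zero]

lemma V_succ (n : ℕ) (i : ℤ) : V (n+1) i = V n (i+1) ++ (V n i).reverse := by
  unfold V
  rw [pow_succ, mul_two, seg_add, seg_reverse]
  congr 1
  · apply seg_congr; intro t _; push_cast; ring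
  · apply seg_congr; intro t ht
    simp only [shift]
    rw [g_refl n t ht]; push_cast; ring

lemma V_neg (n : ℕ) : V n (-n) = seg (fun t => ((g t : ℕ) : L)) (2^n) := by
  simp [V]

end Pool.Agent.Lib.MP_a45045_al
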